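import Mathlib

/-!
# Irreducible algebras of operators over an algebraically closed field
-/

open Finset

namespace Pool.Agent.H934.GA

variable {K : Type*} [Field K] {V : Type*} [AddCommGroup V] [Module K V]

/-- **The theorem of Burnside** on irreducible algebras of operators. -/
theorem burnside [IsAlgClosed K] [Module.Finite K V] {B : Submodule K (Module.End K V)}
    (h1 : (1 : Module.End K V) ∈ B) (hmul : ∀ x ∈ B, ∀ y ∈ B, x * y ∈ B)
    (hirr : ∀ U : Submodule K V, (∀ b ∈ B, ∀ u ∈ U, b u ∈ U) → U = ⊥ ∨ U = ⊤) : B = ⊤ := by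
  classical
  by_cases hV : Subsingleton V
  · rw [eq_top_iff]
    intro x _
    have : x = 0 := LinearMap.ext fun v => Subsingleton.elim _ _
    rw [this]; exact Submodule.zero_mem _
  rw [not_subsingleton_iff_nontrivial] at hV
  -- transitivity
  have htrans : ∀ x : V, x ≠ 0 → ∀ y : V, ∃ b ∈ B, b x = y := by
    intro x hx y
    have h2 := hirr (B.map (LinearMap.applyₗ x)) (by
      rintro b hb _ ⟨c, hc, rfl⟩
      exact ⟨b * c, hmul b hb c hc, rfl⟩)
    have h3 : x ∈ B.map (LinearMap.applyₗ x) := ⟨1, h1, rfl⟩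
    rcases h2 with h2 | h2
    · rw [h2] at h3; exact absurd ((Submodule.mem_bot _).1 h3) hx
    · have h4 : y ∈ B.map (LinearMap.applyₗ x) := by rw [h2]; trivial
      obtain ⟨b, hb, hby⟩ := h4
      exact ⟨b, hb, hby⟩
  -- an element of minimal rank
  have hex : ∃ r, ∃ T ∈ B, T ≠ 0 ∧ Module.finrank K (LinearMap.range T) = r :=
    ⟨_, 1, h1, one_ne_zero, rfl⟩
  obtain ⟨T, hT, hT0, hTr⟩ := Nat.find_spec hex
  have hmin : ∀ T' ∈ B, T' ≠ 0 → Module.finrank K (LinearMap.range T) ≤
      Module.finrank K (LinearMap.range T') := by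
    intro T' hT' hT'0
    rw [hTr]
    exact Nat.find_min' hex ⟨T', hT', hT'0, rfl⟩
  obtain ⟨x1, hx1⟩ : ∃ x, T x ≠ 0 := by
    by_contra hcon
    push Not at hcon
    exact hT0 (LinearMap.ext hcon)
  have hone : ∀ x, T x ∈ Submodule.span K {T x1} := by
    by_contra hcon
    push Not at hcon
    obtain ⟨x2, hx2⟩ := hcon
    obtain ⟨S, hS, hSx⟩ := htrans (T x1) hx1 x2
    -- the restriction of `T S` to the range of `T`
    set A : Module.End K (LinearMap.range T) := (T * S).restrict (p := LinearMap.range T)
      (q := LinearMap.range T) (by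
      rintro _ ⟨v, rfl⟩
      exact ⟨S (T v), rfl⟩) with hA
    haveI : Nontrivial (LinearMap.range T) := ⟨⟨⟨T x1, ⟨x1, rfl⟩⟩, 0, fun h => hx1 (by
      have := congrArg Subtype.val h
      exact this)⟩⟩
    obtain ⟨μ, hμ⟩ := Module.End.exists_eigenvalue A
    obtain ⟨⟨w, hw⟩, hw1⟩ := hμ.exists_hasEigenvector
    have hw2 : w ≠ 0 := fun h => hw1.2 (Subtype.ext h)
    have hw3 : T (S w) = μ • w := by
      have := congrArg Subtype.val (Module.End.mem_eigenspace_iff.1 hw1.1)
      exact this
    set T' := T * S * T - μ • T with hT'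
    have hT'B : T' ∈ B := Submodule.sub_mem _ (hmul _ (hmul _ hT _ hS) _ hT)
      (Submodule.smul_mem _ _ hT)
    have hT'0 : T' ≠ 0 := by
      intro h0
      apply hx2
      have h2 : T' x1 = 0 := by rw [h0]; rfl
      have h3 : T' x1 = T x2 - μ • T x1 := by
        rw [hT', LinearMap.sub_apply, Module.End.mul_apply, Module.End.mul_apply, hSx,
          LinearMap.smul_apply]
      rw [h3, sub_eq_zero] at h2
      rw [h2]
      exact Submodule.smul_mem _ _ (Submodule.mem_span_singleton_self _)
    have hle : LinearMap.range T' ≤ LinearMap.range T := by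
      rintro _ ⟨v, rfl⟩
      refine ⟨S (T v) - μ • v, ?_⟩
      rw [map_sub, map_smul, hT']
      rfl
    have hlt : Module.finrank K (LinearMap.range T') < Module.finrank K (LinearMap.range T) := by
      -- the operator `T S - μ` maps the range of `T` onto the range of `T'`
      set A' : Module.End K (LinearMap.range T) := A - μ • 1 with hA'
      have h2 : LinearMap.range T' = (LinearMap.range A').map (LinearMap.range T).subtype := by
        ext v
        constructor
        · rintro ⟨u, rfl⟩
          refine ⟨A' ⟨T u, ⟨u, rfl⟩⟩, ⟨_, rfl⟩, ?_⟩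
          rfl
        · rintro ⟨_, ⟨⟨_, ⟨u, rfl⟩⟩, rfl⟩, rfl⟩
          exact ⟨u, rfl⟩
      rw [h2, ← LinearEquiv.finrank_eq (Submodule.equivMapOfInjective
        (LinearMap.range T).subtype (Submodule.injective_subtype _) (LinearMap.range A'))]
      apply Submodule.finrank_lt
      intro htop
      have h3 : LinearMap.ker A' = ⊥ := LinearMap.ker_eq_bot_iff_range_eq_top.2 htop
      have h4 : (⟨w, hw⟩ : LinearMap.range T) ∈ LinearMap.ker A' := by
        rw [LinearMap.mem_ker]
        apply Subtype.ext
        change T (S w) - μ • w = 0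
        rw [hw3, sub_self]
      rw [h3, Submodule.mem_bot] at h4
      exact hw2 (congrArg Subtype.val h4)
    exact absurd (hmin T' hT'B hT'0) (not_le.2 hlt)
  -- the functional
  obtain ⟨f, hf⟩ : ∃ f : Module.Dual K V, ∀ x, T x = f x • T x1 := by
    obtain ⟨g, hg⟩ : ∃ g : Module.Dual K V, g (T x1) = 1 := by
      obtain ⟨g, hg⟩ : ∃ g : Module.Dual K V, g (T x1) ≠ 0 := by
        by_contra hcon
        push Not at hcon
        exact hx1 ((Module.forall_dual_apply_eq_zero_iff K _).1 hcon)
      exact ⟨(g (T x1))⁻¹ • g, by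
        rw [LinearMap.smul_apply, smul_eq_mul, inv_mul_cancel₀ hg]⟩
    refine ⟨g ∘ₗ T, fun x => ?_⟩
    obtain ⟨c, hc⟩ := Submodule.mem_span_singleton.1 (hone x)
    rw [LinearMap.comp_apply, ← hc, map_smul, hg, smul_eq_mul, mul_one]
  have hf0 : f ≠ 0 := by
    intro h0
    apply hx1
    rw [hf x1, h0, LinearMap.zero_apply, zero_smul]
  -- all functionals are of the form `f ∘ C`
  have hD : ∀ g : Module.Dual K V, ∃ C ∈ B, f ∘ₗ C = g := by
    set D : Submodule K (Module.Dual K V) := B.map (LinearMap.compRight K f) with hD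
    have h2 : D.dualCoannihilator = ⊥ := by
      rcases hirr D.dualCoannihilator (by
        intro b hb u hu
        rw [Submodule.mem_dualCoannihilator] at hu ⊢
        rintro _ ⟨C, hC, rfl⟩
        have := hu (LinearMap.compRight K f (C * b)) ⟨C * b, hmul _ hC _ hb, rfl⟩
        exact this) with h3 | h3
      · exact h3
      · exfalso
        apply hf0
        apply LinearMap.ext
        intro v
        have h4 : v ∈ D.dualCoannihilator := by rw [h3]; trivial
        rw [Submodule.mem_dualCoannihilator] at h4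
        exact h4 (LinearMap.compRight K f 1) ⟨1, h1, rfl⟩
    have h3 : D = ⊤ := by
      rw [← Subspace.dualCoannihilator_dualAnnihilator_eq (W := D), h2,
        Submodule.dualAnnihilator_bot]
    intro g
    have h4 : g ∈ D := by rw [h3]; trivial
    obtain ⟨C, hC, hCg⟩ := h4
    exact ⟨C, hC, hCg⟩
  -- operators of rank one
  have hrank : ∀ (g : Module.Dual K V) (y : V), g.smulRight y ∈ B := by
    intro g y
    obtain ⟨C, hC, rfl⟩ := hD g
    obtain ⟨A, hA, rfl⟩ := htrans (T x1) hx1 y
    have h2 : (f ∘ₗ C).smulRight (A (T x1)) = A * T * C := by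
      apply LinearMap.ext
      intro v
      rw [LinearMap.smulRight_apply, Module.End.mul_apply, Module.End.mul_apply, hf (C v), map_smul,
        LinearMap.comp_apply]
    rw [h2]
    exact hmul _ (hmul _ hA _ hT) _ hC
  rw [eq_top_iff]
  intro x _
  set b := Module.finBasis K V with hb
  have h2 : x = ∑ i, (b.coord i).smulRight (x (b i)) := by
    apply b.ext
    intro j
    rw [LinearMap.sum_apply, Finset.sum_eq_single j]
    · rw [LinearMap.smulRight_apply, Module.Basis.coord_apply, Module.Basis.repr_self,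
        Finsupp.single_eq_same, one_smul]
    · intro i _ hij
      rw [LinearMap.smulRight_apply, Module.Basis.coord_apply, Module.Basis.repr_self,
        Finsupp.single_eq_of_ne (by simpa using hij), zero_smul]
    · intro h'; exact absurd (Finset.mem_univ j) h'
  rw [h2]
  exact Submodule.sum_mem _ fun i _ => hrank _ _

end Pool.Agent.H934.GA
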