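import Pool.Agent.H934.GA.Tr
import Pool.Agent.H934.GA.Burn

/-!
# Algebras of operators with rational traces
-/

open Finset Polynomial Module

namespace Pool.Agent.H934.GA

variable {K : Type*} [Field K] [CharZero K] {V : Type*} [AddCommGroup V] [Module K V]
  [Module.Finite K V]

/-- A set of operators with rational super traces, each commuting with a power of `φ`. -/
structure Setup (φ ε : Module.End K V) (s : K → K) (R : Module.End K V → Prop) : Prop where
  one : R 1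
  mul : ∀ x y, R x → R y → R (x * y)
  phi : R φ
  comm : ∀ x, R x → ∃ m : ℕ, 0 < m ∧ φ ^ m * x = x * φ ^ m
  tr : ∀ x, R x → ∃ r : ℚ, LinearMap.trace K V (ε * x) = (r : K)
  eps : ∀ μ, ∀ v ∈ φ.maxGenEigenspace μ, ε v = s μ • v
  sgn : ∀ μ, s μ = 1 ∨ s μ = -1
  alg : ∀ μ ∈ evs φ, IsIntegral ℚ μ
  rat : ∀ μ ∈ evs φ, ∀ ν ∈ evs φ, ∀ m : ℕ, 0 < m → μ ^ m = ν ^ m → μ = ν
  ne : ∀ μ ∈ evs φ, μ ≠ 0

lemma conj_pow {x y : K} (hy : aeval y (minpoly ℚ x) = 0) (M : ℕ) :
    aeval (y ^ M) (minpoly ℚ (x ^ M)) = 0 := by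
  have h1 : minpoly ℚ x ∣ (minpoly ℚ (x ^ M)).comp (X ^ M) := by
    apply minpoly.dvd
    rw [aeval_comp, map_pow, aeval_X]
    exact minpoly.aeval _ _
  obtain ⟨g, hg⟩ := h1
  have := congrArg (aeval y) hg
  rw [map_mul, hy, zero_mul, aeval_comp, map_pow, aeval_X] at this
  exact this

variable [IsAlgClosed K]

lemma isProj_pe (φ : Module.End K V) (μ : K) : LinearMap.IsProj (φ.maxGenEigenspace μ) (pe φ μ) :=
  ⟨pe_mem φ μ, fun _ hv => pe_same hv⟩

lemma trace_pe (φ : Module.End K V) (μ : K) :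
    LinearMap.trace K V (pe φ μ) = (φ.charpoly.rootMultiplicity μ : K) := by
  rw [(isProj_pe φ μ).trace, LinearMap.finrank_maxGenEigenspace_eq]

namespace Setup

variable {φ ε : Module.End K V} {s : K → K} {R : Module.End K V → Prop}

lemma s_ne (h : Setup φ ε s R) (μ : K) : s μ ≠ 0 := by
  rcases h.sgn μ with h | h <;> rw [h] <;> simp

lemma pow (h : Setup φ ε s R) (n : ℕ) : R (φ ^ n) := by
  induction n with
  | zero => rw [pow_zero]; exact h.one
  | succ n ih => rw [pow_succ]; exact h.mul _ _ ih h.phi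

lemma pres (h : Setup φ ε s R) {y : Module.End K V} (hy : R y) (μ : K) (v : V)
    (hv : v ∈ φ.maxGenEigenspace μ) : y v ∈ φ.maxGenEigenspace μ := by
  obtain ⟨m, hm, hc⟩ := h.comm y hy
  exact preserves h.rat hm hc μ v hv

lemma commPe (h : Setup φ ε s R) {y : Module.End K V} (hy : R y) (μ : K) :
    pe φ μ * y = y * pe φ μ :=
  pe_comm (fun μ v hv => h.pres hy μ v hv) μ

lemma exists_comm (h : Setup φ ε s R) {ρ : ℕ} (y : Fin ρ → Module.End K V) (hy : ∀ a, R (y a)) :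
    ∃ M : ℕ, 0 < M ∧ ∀ a, φ ^ M * y a = y a * φ ^ M := by
  choose m hm hc using fun a => h.comm (y a) (hy a)
  refine ⟨∏ a, m a, Finset.prod_pos fun a _ => hm a, fun a => ?_⟩
  obtain ⟨k, hk⟩ : m a ∣ ∏ a, m a := Finset.dvd_prod_of_mem m (Finset.mem_univ a)
  rw [hk, pow_mul]
  have h1 : Commute (φ ^ m a) (y a) := hc a
  exact (h1.pow_left k).eq

/-- The moments. -/
lemma moments (h : Setup φ ε s R) {z : Module.End K V} (hz : R z) {M : ℕ}
    (hM : φ ^ M * z = z * φ ^ M) : ∃ r : ℕ → ℚ, ∀ j, (r j : K) =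
      ∑ μ ∈ evs φ, (s μ * LinearMap.trace K V (z * pe φ μ)) * (μ ^ M) ^ j := by
  choose r hr using fun j : ℕ => h.tr (φ ^ (M * j) * z) (h.mul _ _ (h.pow _) hz)
  refine ⟨r, fun j => ?_⟩
  rw [← hr, trace_eps h.eps]
  apply Finset.sum_congr rfl
  intro μ _
  have h1 : φ ^ (M * j) * z = z * φ ^ (M * j) := by
    rw [pow_mul]
    have h2 : Commute (φ ^ M) z := hM
    exact (h2.pow_left j).eq
  rw [trace_pow_mul h1 (h.commPe hz μ), pow_mul]
  ring

/-- Conjugates of an eigenvalue are eigenvalues with the same multiplicity. -/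
lemma conj (h : Setup φ ε s R) {μ ν : K} (hμ : μ ∈ evs φ) (hν : aeval ν (minpoly ℚ μ) = 0) :
    ν ∈ evs φ ∧ φ.charpoly.rootMultiplicity ν = φ.charpoly.rootMultiplicity μ := by
  classical
  obtain ⟨r, hr⟩ := h.moments h.one (M := 1) (by rw [mul_one, one_mul])
  obtain ⟨Q, hQ, hQ'⟩ := exists_separable (evs φ) (fun μ => μ ^ 1) (fun μ hμ => by
    rw [pow_one]; exact h.alg μ hμ)
  have h1 := Npol_mem Q r (evs φ) (fun μ => μ ^ 1)
    (fun μ => s μ * LinearMap.trace K V (1 * pe φ μ)) hr hQ' hμ (fun ν _ hν => by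
      simpa using hν)
  simp only [pow_one, one_mul, trace_pe] at h1
  -- the polynomial `N - s m Q'`
  obtain ⟨c, hc⟩ : ∃ c : ℚ, (c : K) = s μ * (φ.charpoly.rootMultiplicity μ : K) := by
    rcases h.sgn μ with h2 | h2
    · exact ⟨φ.charpoly.rootMultiplicity μ, by rw [h2]; push_cast; ring⟩
    · exact ⟨-φ.charpoly.rootMultiplicity μ, by rw [h2]; push_cast; ring⟩
  have h2 : aeval μ (Npol Q r - C c * derivative Q) = 0 := by
    rw [map_sub, h1, map_mul, aeval_C]
    change _ - (c : K) * _ = 0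
    rw [hc, sub_self]
  obtain ⟨g, hg⟩ := minpoly.dvd ℚ μ h2
  have h3 : aeval ν (Npol Q r) = (c : K) * aeval ν (derivative Q) := by
    have h4 := congrArg (aeval ν) hg
    rw [map_mul, hν, zero_mul, map_sub, map_mul, aeval_C, sub_eq_zero] at h4
    exact h4
  have hQμ : aeval μ Q = 0 := by simpa using hQ' μ hμ
  obtain ⟨g', hg'⟩ := minpoly.dvd ℚ μ hQμ
  have hQν : aeval ν Q = 0 := by rw [hg', map_mul, hν, zero_mul]
  have hQ'ν : aeval ν (derivative Q) ≠ 0 := hQ.aeval_derivative_ne_zero hQν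
  have hc0 : (c : K) ≠ 0 := by
    rw [hc]
    exact mul_ne_zero (h.s_ne μ) (by exact_mod_cast mem_evs.1 hμ)
  have hνe : ν ∈ evs φ := by
    by_contra hcon
    have h4 := Npol_notMem Q r (evs φ) (fun μ => μ ^ 1)
      (fun μ => s μ * LinearMap.trace K V (1 * pe φ μ)) hr hQ' hQν (fun κ hκ he => hcon (by
        have : κ = ν := by simpa using he
        rw [← this]; exact hκ))
    rw [h3] at h4
    exact (mul_ne_zero hc0 hQ'ν) h4
  refine ⟨hνe, ?_⟩
  have h4 := Npol_mem Q r (evs φ) (fun μ => μ ^ 1)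
    (fun μ => s μ * LinearMap.trace K V (1 * pe φ μ)) hr hQ' hνe (fun κ _ hκ => by
      simpa using hκ)
  simp only [pow_one, one_mul, trace_pe] at h4
  rw [h3] at h4
  have h5 := mul_right_cancel₀ hQ'ν h4
  rw [hc] at h5
  have h6 : ((φ.charpoly.rootMultiplicity μ : ℕ) : K) ^ 2 =
      ((φ.charpoly.rootMultiplicity ν : ℕ) : K) ^ 2 := by
    have h7 := congrArg (· ^ 2) h5
    simp only [mul_pow] at h7
    have h8 : ∀ κ, s κ ^ 2 = 1 := fun κ => by rcases h.sgn κ with h | h <;> rw [h] <;> ring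
    rwa [h8, h8, one_mul, one_mul] at h7
  have h7 : (φ.charpoly.rootMultiplicity μ) ^ 2 = (φ.charpoly.rootMultiplicity ν) ^ 2 := by
    exact_mod_cast h6
  exact (Nat.pow_left_injective (by norm_num : 2 ≠ 0) h7).symm

/-- The matrix of the traces on a generalised eigenspace. -/
noncomputable def gram (φ : Module.End K V) (μ : K) {ρ : ℕ} (y y' : Fin ρ → Module.End K V) :
    Matrix (Fin ρ) (Fin ρ) K :=
  Matrix.of fun a b => LinearMap.trace K V (y a * y' b * pe φ μ)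

/-- The ranks of the matrices at conjugate eigenvalues are equal. -/
lemma rank_gram_conj (h : Setup φ ε s R) {μ ν : K} (hμ : μ ∈ evs φ)
    (hν : aeval ν (minpoly ℚ μ) = 0) {ρ : ℕ} (y y' : Fin ρ → Module.End K V)
    (hy : ∀ a, R (y a)) (hy' : ∀ a, R (y' a)) :
    (gram φ μ y y').rank = (gram φ ν y y').rank := by
  classical
  obtain ⟨M₁, hM₁, hc₁⟩ := h.exists_comm y hy
  obtain ⟨M₂, hM₂, hc₂⟩ := h.exists_comm y' hy'
  set M := M₁ * M₂ with hM
  have hMpos : 0 < M := Nat.mul_pos hM₁ hM₂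
  have hcz : ∀ a b, φ ^ M * (y a * y' b) = (y a * y' b) * φ ^ M := by
    intro a b
    have h1 : Commute (φ ^ M) (y a) := by
      rw [hM, pow_mul]
      exact Commute.pow_left (hc₁ a) _
    have h2 : Commute (φ ^ M) (y' b) := by
      rw [hM, mul_comm M₁ M₂, pow_mul]
      exact Commute.pow_left (hc₂ b) _
    exact (h1.mul_right h2).eq
  choose r hr using fun a b => h.moments (h.mul _ _ (hy a) (hy' b)) (hcz a b)
  obtain ⟨Q, hQ, hQ'⟩ := exists_separable (evs φ) (fun μ => μ ^ M) (fun μ hμ =>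
    (h.alg μ hμ).pow M)
  have hval : ∀ κ ∈ evs φ, ((Matrix.of fun a b => Npol Q (r a b)).map fun g => aeval (κ ^ M) g) =
      (s κ * aeval (κ ^ M) (derivative Q)) • gram φ κ y y' := by
    intro κ hκ
    ext a b
    rw [Matrix.map_apply, Matrix.of_apply, Matrix.smul_apply, gram, Matrix.of_apply,
      Npol_mem Q (r a b) (evs φ) (fun μ => μ ^ M)
      (fun μ => s μ * LinearMap.trace K V (y a * y' b * pe φ μ)) (hr a b) hQ' hκ
      (fun κ' hκ' he => h.rat κ' hκ' κ hκ M hMpos he), smul_eq_mul]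
    ring
  have hne : ∀ κ ∈ evs φ, s κ * aeval (κ ^ M) (derivative Q) ≠ 0 := fun κ hκ =>
    mul_ne_zero (h.s_ne κ) (hQ.aeval_derivative_ne_zero (hQ' κ hκ))
  have hνe := (h.conj hμ hν).1
  have hrk : ∀ κ ∈ evs φ, (gram φ κ y y').rank =
      ((Matrix.of fun a b => Npol Q (r a b)).map fun g => aeval (κ ^ M) g).rank := by
    intro κ hκ
    rw [hval κ hκ, Matrix.rank_smul_of_mem_nonZeroDivisors _
      (mem_nonZeroDivisors_of_ne_zero (hne κ hκ))]
  rw [hrk μ hμ, hrk ν hνe]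
  exact rank_conj _ ((h.alg μ hμ).pow M) (conj_pow hν M)

end Setup

end Pool.Agent.H934.GA
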