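import Pool.Agent.H934.GA.Core

/-!
# Irreducibility of the generalised eigenspaces
-/

open Finset Polynomial Module

namespace Pool.Agent.H934.GA

variable {K : Type*} [Field K] {V : Type*} [AddCommGroup V] [Module K V]
  [Module.Finite K V]

lemma rank_corner (q : Module.End K V) {ρ : ℕ} (A B : Fin ρ → Module.End K V) :
    (Matrix.of fun a b => LinearMap.trace K V (q * A a * q * B b)).rank ≤
      finrank K (LinearMap.range q) ^ 2 := by
  set ι := (LinearMap.range q).subtype with hι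
  set π := q.rangeRestrict with hπ
  have h1 : ∀ a b, LinearMap.trace K V (q * A a * q * B b) =
      ((LinearMap.mul K (Module.End K (LinearMap.range q))).compr₂
        (LinearMap.trace K (LinearMap.range q))) (π ∘ₗ A a ∘ₗ ι) (π ∘ₗ B b ∘ₗ ι) := by
    intro a b
    rw [LinearMap.compr₂_apply, LinearMap.mul_apply']
    have h2 : q * A a * q * B b = ι ∘ₗ (π ∘ₗ A a ∘ₗ ι ∘ₗ π ∘ₗ B b) :=
      LinearMap.ext fun v => rfl
    rw [h2, LinearMap.trace_comp_comm']
    rfl
  simp only [h1]
  refine (rank_gram_le _ _ _).trans ?_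
  rw [Module.finrank_linearMap, sq]

section closed

variable [IsAlgClosed K]

lemma range_pe (φ : Module.End K V) (μ : K) : LinearMap.range (pe φ μ) = φ.maxGenEigenspace μ := by
  ext v
  constructor
  · rintro ⟨w, rfl⟩; exact pe_mem φ μ w
  · intro hv; exact ⟨v, pe_same hv⟩

/-- Projections onto a subspace of a generalised eigenspace. -/
lemma exists_proj (φ : Module.End K V) {μ : K} {U : Submodule K V}
    (hU : U ≤ φ.maxGenEigenspace μ) : ∃ p q : Module.End K V, (∀ v, p v ∈ U) ∧
      (∀ v ∈ U, p v = v) ∧ p + q = pe φ μ ∧ q * q = q ∧ q * p = 0 ∧ q * pe φ μ = q := by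
  obtain ⟨U', hU'⟩ := Submodule.exists_isCompl U
  obtain ⟨p₀, hp₀mem, hp₀same⟩ : ∃ p₀ : Module.End K V, (∀ v, p₀ v ∈ U) ∧
      ∀ v ∈ U, p₀ v = v := by
    refine ⟨U.subtype ∘ₗ Submodule.projectionOnto U U' hU', fun v => Subtype.mem _, ?_⟩
    intro v hv
    have := Submodule.projectionOnto_apply_left hU' ⟨v, hv⟩
    exact congrArg Subtype.val this
  obtain ⟨p, hpmem, hpsame, hpe⟩ : ∃ p : Module.End K V, (∀ v, p v ∈ U) ∧
      (∀ v ∈ U, p v = v) ∧ p * pe φ μ = p := by
    refine ⟨p₀ * pe φ μ, fun v => hp₀mem _, ?_, ?_⟩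
    · intro v hv
      rw [Module.End.mul_apply, pe_same (hU hv)]
      exact hp₀same v hv
    · rw [mul_assoc, pe_mul_self]
  have hpp : p * p = p := LinearMap.ext fun v => hpsame _ (hpmem v)
  have hep : pe φ μ * p = p := LinearMap.ext fun v => pe_same (hU (hpmem v))
  refine ⟨p, pe φ μ - p, hpmem, hpsame, by abel, ?_, ?_, ?_⟩
  · rw [sub_mul, mul_sub, mul_sub, hpp, hep, hpe, pe_mul_self]; abel
  · rw [sub_mul, hep, hpp, sub_self]
  · rw [sub_mul, hpe, pe_mul_self]

end closed

variable [CharZero K] [IsAlgClosed K]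

lemma trace_of_idem {q : Module.End K V} (hq : q * q = q) :
    LinearMap.trace K V q = (finrank K (LinearMap.range q) : K) := by
  have : LinearMap.IsProj (LinearMap.range q) q := by
    refine ⟨fun v => ⟨v, rfl⟩, ?_⟩
    rintro _ ⟨v, rfl⟩
    exact congrArg (fun F => F v) hq
  exact this.trace

namespace Setup

variable {φ ε : Module.End K V} {s : K → K} {R : Module.End K V → Prop}

lemma rank_gram_le (h : Setup φ ε s R) (μ : K) {ρ : ℕ} (y y' : Fin ρ → Module.End K V)
    (hy' : ∀ a, R (y' a)) : (gram φ μ y y').rank ≤ φ.charpoly.rootMultiplicity μ ^ 2 := by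
  have h1 : gram φ μ y y' =
      Matrix.of fun a b => LinearMap.trace K V (pe φ μ * y a * pe φ μ * y' b) := by
    ext a b
    rw [gram, Matrix.of_apply, Matrix.of_apply]
    calc LinearMap.trace K V (y a * y' b * pe φ μ)
        = LinearMap.trace K V ((y a * (pe φ μ * y' b)) * pe φ μ) := by
          rw [h.commPe (hy' b), ← mul_assoc, mul_assoc _ (pe φ μ) (pe φ μ), pe_mul_self]
      _ = LinearMap.trace K V (pe φ μ * (y a * (pe φ μ * y' b))) := LinearMap.trace_mul_comm _ _ _
      _ = _ := by rw [← mul_assoc, ← mul_assoc, mul_assoc _ (y a)]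
  rw [h1]
  refine (rank_corner _ _ _).trans ?_
  rw [range_pe, LinearMap.finrank_maxGenEigenspace_eq]

/-- The bound for the rank if there is a stable subspace. -/
lemma rank_gram_le' (h : Setup φ ε s R) {μ : K} {U : Submodule K V}
    (hU : U ≤ φ.maxGenEigenspace μ) (hU0 : U ≠ ⊥) (hU1 : U ≠ φ.maxGenEigenspace μ)
    (hst : ∀ y, R y → ∀ u ∈ U, y u ∈ U) {ρ : ℕ} (y y' : Fin ρ → Module.End K V)
    (hy : ∀ a, R (y a)) (hy' : ∀ a, R (y' a)) :
    (gram φ μ y y').rank + 2 * (φ.charpoly.rootMultiplicity μ - 1) ≤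
      φ.charpoly.rootMultiplicity μ ^ 2 := by
  obtain ⟨p, q, hpmem, hpsame, hsum, hqq, hqp, hqe⟩ := exists_proj φ hU
  have hpp : p * p = p := LinearMap.ext fun v => hpsame _ (hpmem v)
  have hrp : LinearMap.range p = U := by
    ext v
    exact ⟨fun ⟨w, hw⟩ => hw ▸ hpmem w, fun hv => ⟨v, hpsame v hv⟩⟩
  -- stability
  have hyp : ∀ y, R y → p * (y * p) = y * p := fun y hy =>
    LinearMap.ext fun v => hpsame _ (hst y hy _ (hpmem v))
  have hyq : ∀ y, R y → q * y * q = q * y := by
    intro y hy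
    have h1 : q * y = q * y * pe φ μ := by
      rw [mul_assoc q y, ← h.commPe hy, ← mul_assoc, hqe]
    have h2 : q * y * p = 0 := by
      rw [mul_assoc, ← hyp y hy, ← mul_assoc, hqp, zero_mul]
    conv_rhs => rw [h1, ← hsum, mul_add, h2, zero_add]
  have hG : gram φ μ y y' =
      (Matrix.of fun a b => LinearMap.trace K V (p * y a * p * y' b)) +
      (Matrix.of fun a b => LinearMap.trace K V (q * y a * q * y' b)) := by
    ext a b
    rw [gram, Matrix.of_apply, Matrix.add_apply, Matrix.of_apply, Matrix.of_apply, ← hsum,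
      mul_add, map_add]
    congr 1
    · calc LinearMap.trace K V (y a * y' b * p)
          = LinearMap.trace K V ((y a * p) * (y' b * p)) := by
            rw [mul_assoc (y a) p, hyp _ (hy' b), mul_assoc]
        _ = LinearMap.trace K V ((y' b * p) * (y a * p)) := LinearMap.trace_mul_comm _ _ _
        _ = LinearMap.trace K V (y' b * (p * y a * p)) := by
            congr 1
        _ = _ := LinearMap.trace_mul_comm _ _ _
    · calc LinearMap.trace K V (y a * y' b * q)
          = LinearMap.trace K V (q * (y a * y' b)) := LinearMap.trace_mul_comm _ _ _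
        _ = LinearMap.trace K V ((q * y a) * y' b) := by rw [mul_assoc]
        _ = _ := by rw [hyq _ (hy a)]
  set m := φ.charpoly.rootMultiplicity μ with hm
  set u := finrank K (LinearMap.range p) with hu
  set w := finrank K (LinearMap.range q) with hw
  have huw : u + w = m := by
    have h1 : LinearMap.trace K V p + LinearMap.trace K V q = (m : K) := by
      rw [← map_add, hsum, trace_pe]
    rw [trace_of_idem hpp, trace_of_idem hqq] at h1
    exact_mod_cast h1
  have hu1 : 1 ≤ u := by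
    rw [Nat.one_le_iff_ne_zero, hu, hrp]
    intro h0
    exact hU0 (Submodule.finrank_eq_zero.1 h0)
  have hw1 : 1 ≤ w := by
    rw [Nat.one_le_iff_ne_zero]
    intro h0
    apply hU1
    apply Submodule.eq_of_le_of_finrank_eq hU
    rw [LinearMap.finrank_maxGenEigenspace_eq, ← hrp, ← hm]
    omega
  have hrk : (gram φ μ y y').rank ≤ u ^ 2 + w ^ 2 := by
    rw [hG]
    exact (rank_add_le _ _).trans (Nat.add_le_add (rank_corner _ _ _) (rank_corner _ _ _))
  have h2 : m ^ 2 = u ^ 2 + w ^ 2 + 2 * (u * w) := by rw [← huw]; ring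
  have h3 : m - 1 ≤ u * w := by
    clear_value u w
    obtain ⟨a, rfl⟩ : ∃ a, u = a + 1 := ⟨u - 1, by omega⟩
    obtain ⟨b, rfl⟩ : ∃ b, w = b + 1 := ⟨w - 1, by omega⟩
    rw [← huw]
    have : (a + 1) * (b + 1) = a * b + (a + b + 1) := by ring
    rw [this]
    omega
  omega

/-- **Irreducibility.** -/
theorem irreducible (h : Setup φ ε s R) {ρ : ℕ} (y y' : Fin ρ → Module.End K V)
    (hy : ∀ a, R (y a)) (hy' : ∀ a, R (y' a))
    (hdet : (Matrix.of fun a b => LinearMap.trace K V (ε * (y a * y' b))).det ≠ 0)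
    (hgap : ∀ μ, 2 ≤ φ.charpoly.rootMultiplicity μ →
      ∑ ν ∈ evs φ, φ.charpoly.rootMultiplicity ν ^ 2 <
        ρ + 2 * (minpoly ℚ μ).natDegree * (φ.charpoly.rootMultiplicity μ - 1))
    (μ : K) {U : Submodule K V} (hU : U ≤ φ.maxGenEigenspace μ)
    (hst : ∀ y, R y → ∀ u ∈ U, y u ∈ U) : U = ⊥ ∨ U = φ.maxGenEigenspace μ := by
  classical
  by_contra hcon
  push Not at hcon
  obtain ⟨hU0, hU1⟩ := hcon
  have hlt : U < φ.maxGenEigenspace μ := lt_of_le_of_ne hU hU1
  have h1 : 1 ≤ finrank K U := by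
    rw [Nat.one_le_iff_ne_zero]
    intro h0
    exact hU0 (Submodule.finrank_eq_zero.1 h0)
  have h2 := Submodule.finrank_lt_finrank_of_lt hlt
  rw [LinearMap.finrank_maxGenEigenspace_eq] at h2
  have hm : 2 ≤ φ.charpoly.rootMultiplicity μ := by omega
  have hμ : μ ∈ evs φ := mem_evs.2 (by omega)
  have hg := hgap μ hm
  -- the conjugates
  set C := (minpoly ℚ μ).rootSet K with hC
  have hCfin : C.toFinset.card = (minpoly ℚ μ).natDegree := by
    rw [Set.toFinset_card]
    exact card_rootSet_eq_natDegree (minpoly.irreducible (h.alg μ hμ)).separable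
      (IsAlgClosed.splits _)
  have hconj : ∀ ν ∈ C.toFinset, aeval ν (minpoly ℚ μ) = 0 := by
    intro ν hν
    rw [Set.mem_toFinset] at hν
    exact ((mem_rootSet.1 hν)).2
  have hsub : C.toFinset ⊆ evs φ := fun ν hν => (h.conj hμ (hconj ν hν)).1
  -- the rank
  have hrank : ρ ≤ ∑ ν ∈ evs φ, (gram φ ν y y').rank := by
    have h3 := Matrix.rank_of_det_ne_zero hdet
    rw [Fintype.card_fin] at h3
    refine h3.symm.le.trans ?_
    have h4 : (Matrix.of fun a b => LinearMap.trace K V (ε * (y a * y' b))) =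
        ∑ ν ∈ evs φ, s ν • gram φ ν y y' := by
      ext a b
      rw [Matrix.of_apply, trace_eps h.eps, Matrix.sum_apply]
      rfl
    rw [h4]
    refine (rank_sum_le _ _).trans ?_
    apply Finset.sum_le_sum
    intro ν _
    rw [Matrix.rank_smul_of_mem_nonZeroDivisors _ (mem_nonZeroDivisors_of_ne_zero (h.s_ne ν))]
  rw [← Finset.sum_sdiff hsub] at hrank hg
  have h5 : ∑ ν ∈ evs φ \ C.toFinset, (gram φ ν y y').rank ≤
      ∑ ν ∈ evs φ \ C.toFinset, φ.charpoly.rootMultiplicity ν ^ 2 :=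
    Finset.sum_le_sum fun ν _ => h.rank_gram_le ν y y' hy'
  have h6 : ∑ ν ∈ C.toFinset, (gram φ ν y y').rank +
      (minpoly ℚ μ).natDegree * (2 * (φ.charpoly.rootMultiplicity μ - 1)) ≤
      ∑ ν ∈ C.toFinset, φ.charpoly.rootMultiplicity ν ^ 2 := by
    rw [← hCfin, ← smul_eq_mul, ← Finset.sum_const, ← Finset.sum_add_distrib]
    apply Finset.sum_le_sum
    intro ν hν
    rw [(h.conj hμ (hconj ν hν)).2, ← h.rank_gram_conj hμ (hconj ν hν) y y' hy hy']
    exact h.rank_gram_le' hU hU0 hU1 hst y y' hy hy'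
  have h7 : 2 * (minpoly ℚ μ).natDegree * (φ.charpoly.rootMultiplicity μ - 1) =
      (minpoly ℚ μ).natDegree * (2 * (φ.charpoly.rootMultiplicity μ - 1)) := by ring
  omega

end Setup

end Pool.Agent.H934.GA
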