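import Pool.Agent.H934.GA.Core2

/-!
# The span of the algebra
-/

open Finset Polynomial Module

namespace Pool.Agent.H934.GA

variable {K : Type*} [Field K] [CharZero K] {V : Type*} [AddCommGroup V] [Module K V]
  [Module.Finite K V] [IsAlgClosed K]

/-- Induction over two members of a span. -/
lemma span_mul_mem {A : Type*} [Ring A] [Algebra K A] {R : A → Prop}
    (hmul : ∀ x y, R x → R y → R (x * y)) {x y : A} (hx : x ∈ Submodule.span K {z | R z})
    (hy : y ∈ Submodule.span K {z | R z}) : x * y ∈ Submodule.span K {z | R z} := by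
  induction hx using Submodule.span_induction with
  | mem x hx =>
    induction hy using Submodule.span_induction with
    | mem y hy => exact Submodule.subset_span (hmul x y hx hy)
    | zero => rw [mul_zero]; exact Submodule.zero_mem _
    | add y y' _ _ hy hy' => rw [mul_add]; exact Submodule.add_mem _ hy hy'
    | smul a y _ hy => rw [mul_smul_comm]; exact Submodule.smul_mem _ _ hy
  | zero => rw [zero_mul]; exact Submodule.zero_mem _
  | add x x' _ _ hx hx' => rw [add_mul]; exact Submodule.add_mem _ hx hx'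
  | smul a x _ hx => rw [smul_mul_assoc]; exact Submodule.smul_mem _ _ hx

namespace Setup

variable {φ ε : Module.End K V} {s : K → K} {R : Module.End K V → Prop}

lemma aeval_mem (h : Setup φ ε s R) (p : K[X]) : aeval φ p ∈ Submodule.span K {y | R y} := by
  induction p using Polynomial.induction_on' with
  | add p r hp hr => rw [map_add]; exact Submodule.add_mem _ hp hr
  | monomial n a =>
    rw [aeval_monomial, ← Algebra.smul_def]
    exact Submodule.smul_mem _ _ (Submodule.subset_span (h.pow n))

/-- The restrictions to a generalised eigenspace. -/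
def blk (φ : Module.End K V) (R : Module.End K V → Prop) (μ : K)
    (T : Module.End K (φ.maxGenEigenspace μ)) : Prop :=
  ∃ y, R y ∧ ∀ v, (T v : V) = y v

lemma blk_span (h : Setup φ ε s R) {μ : K}
    (hirr : ∀ U ≤ φ.maxGenEigenspace μ, (∀ y, R y → ∀ u ∈ U, y u ∈ U) →
      U = ⊥ ∨ U = φ.maxGenEigenspace μ) :
    Submodule.span K {T | blk φ R μ T} = ⊤ := by
  apply burnside
  · exact Submodule.subset_span ⟨1, h.one, fun v => rfl⟩
  · intro x hx y hy
    refine span_mul_mem (R := blk φ R μ) ?_ hx hy
    rintro x y ⟨x', hx', hxx⟩ ⟨y', hy', hyy⟩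
    refine ⟨x' * y', h.mul _ _ hx' hy', fun v => ?_⟩
    rw [Module.End.mul_apply, hxx, hyy, Module.End.mul_apply]
  · intro U hU
    have h1 := hirr (U.map (φ.maxGenEigenspace μ).subtype) (Submodule.map_subtype_le _ _) (by
      rintro y hy _ ⟨u, hu, rfl⟩
      have h2 := hU (y.restrict (fun v hv => h.pres hy μ v hv))
        (Submodule.subset_span ⟨y, hy, fun v => rfl⟩) u hu
      exact ⟨_, h2, rfl⟩)
    rcases h1 with h1 | h1
    · left
      rw [eq_bot_iff]
      intro u hu
      have h2 : (u : V) ∈ U.map (φ.maxGenEigenspace μ).subtype := ⟨u, hu, rfl⟩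
      rw [h1, Submodule.mem_bot] at h2
      rw [Submodule.mem_bot]
      exact Subtype.ext h2
    · right
      rw [eq_top_iff]
      intro u _
      have h2 : (u : V) ∈ U.map (φ.maxGenEigenspace μ).subtype := by rw [h1]; exact u.2
      obtain ⟨w, hw, hwu⟩ := h2
      have : w = u := Subtype.ext hwu
      rw [← this]; exact hw

lemma exists_span (h : Setup φ ε s R) {μ : K}
    (hirr : ∀ U ≤ φ.maxGenEigenspace μ, (∀ y, R y → ∀ u ∈ U, y u ∈ U) →
      U = ⊥ ∨ U = φ.maxGenEigenspace μ) (T : Module.End K (φ.maxGenEigenspace μ)) :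
    ∃ x ∈ Submodule.span K {y | R y}, ∀ v : φ.maxGenEigenspace μ, x (v : V) = T v := by
  have hT : T ∈ Submodule.span K {T | blk φ R μ T} := by rw [h.blk_span hirr]; trivial
  induction hT using Submodule.span_induction with
  | mem T hT =>
    obtain ⟨y, hy, hyT⟩ := hT
    exact ⟨y, Submodule.subset_span hy, fun v => (hyT v).symm⟩
  | zero => exact ⟨0, Submodule.zero_mem _, fun v => rfl⟩
  | add T T' _ _ hT hT' =>
    obtain ⟨x, hx, hxT⟩ := hT
    obtain ⟨x', hx', hxT'⟩ := hT'
    refine ⟨x + x', Submodule.add_mem _ hx hx', fun v => ?_⟩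
    rw [LinearMap.add_apply, hxT, hxT', LinearMap.add_apply, Submodule.coe_add]
  | smul a T _ hT =>
    obtain ⟨x, hx, hxT⟩ := hT
    refine ⟨a • x, Submodule.smul_mem _ _ hx, fun v => ?_⟩
    rw [LinearMap.smul_apply, hxT, LinearMap.smul_apply, Submodule.coe_smul]

/-- On an irreducible generalised eigenspace the operator is a scalar. -/
lemma scalar (h : Setup φ ε s R) {μ : K}
    (hirr : ∀ U ≤ φ.maxGenEigenspace μ, (∀ y, R y → ∀ u ∈ U, y u ∈ U) →
      U = ⊥ ∨ U = φ.maxGenEigenspace μ) (v : V) (hv : v ∈ φ.maxGenEigenspace μ) :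
    φ v = μ • v := by
  classical
  by_cases hv0 : v = 0
  · rw [hv0, map_zero, smul_zero]
  have hμ := mem_evs_of_mem hv hv0
  set E := φ.maxGenEigenspace μ with hE
  set ψ : Module.End K E := φ.restrict (fun v hv => h.pres h.phi μ v hv) with hψ
  have hψpow : ∀ (n : ℕ) (w : E), ((ψ ^ n) w : V) = (φ ^ n) w := by
    intro n
    induction n with
    | zero => intro w; rfl
    | succ n ih =>
      intro w
      rw [pow_succ, pow_succ, Module.End.mul_apply, Module.End.mul_apply, ih]
      rfl
  -- each operator on the eigenspace commutes with a power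
  have h1 : ∀ T : Module.End K E, ∃ m : ℕ, 0 < m ∧ ψ ^ m * T = T * ψ ^ m := by
    intro T
    have hT : T ∈ Submodule.span K {T | blk φ R μ T} := by rw [h.blk_span hirr]; trivial
    induction hT using Submodule.span_induction with
    | mem T hT =>
      obtain ⟨y, hy, hyT⟩ := hT
      obtain ⟨m, hm, hc⟩ := h.comm y hy
      refine ⟨m, hm, ?_⟩
      apply LinearMap.ext
      intro w
      apply Subtype.ext
      rw [Module.End.mul_apply, Module.End.mul_apply, hψpow, hyT, hyT, hψpow]
      exact congrArg (fun F => F (w : V)) hc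
    | zero => exact ⟨1, one_pos, by rw [mul_zero, zero_mul]⟩
    | add T T' _ _ hT hT' =>
      obtain ⟨m, hm, hc⟩ := hT
      obtain ⟨m', hm', hc'⟩ := hT'
      refine ⟨m * m', Nat.mul_pos hm hm', ?_⟩
      have h2 : Commute (ψ ^ (m * m')) T := by rw [pow_mul]; exact Commute.pow_left hc _
      have h3 : Commute (ψ ^ (m * m')) T' := by
        rw [mul_comm, pow_mul]; exact Commute.pow_left hc' _
      exact (h2.add_right h3).eq
    | smul a T _ hT =>
      obtain ⟨m, hm, hc⟩ := hT
      exact ⟨m, hm, by rw [mul_smul_comm, hc, smul_mul_assoc]⟩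
  set b := Module.finBasis K (Module.End K E) with hb
  choose m hm hc using fun i => h1 (b i)
  set M := ∏ i, m i with hM
  have hMpos : 0 < M := Finset.prod_pos fun i _ => hm i
  have hcen : ∀ T : Module.End K E, ψ ^ M * T = T * ψ ^ M := by
    intro T
    rw [← b.sum_repr T, Finset.mul_sum, Finset.sum_mul]
    apply Finset.sum_congr rfl
    intro i _
    rw [mul_smul_comm, smul_mul_assoc]
    congr 1
    obtain ⟨k, hk⟩ : m i ∣ M := Finset.dvd_prod_of_mem m (Finset.mem_univ i)
    rw [hk, pow_mul]
    exact (Commute.pow_left (hc i) k).eq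
  -- the power is a scalar
  have : Nontrivial E := ⟨⟨⟨v, hv⟩, 0, fun h => hv0 (congrArg Subtype.val h)⟩⟩
  obtain ⟨c, hc'⟩ := Module.End.exists_eigenvalue (ψ ^ M)
  obtain ⟨w, hw⟩ := hc'.exists_hasEigenvector
  have hsc : ∀ u : E, (ψ ^ M) u = c • u := by
    intro u
    obtain ⟨T, hT⟩ : ∃ T : Module.End K E, T w = u := by
      obtain ⟨g, hg⟩ : ∃ g : Module.Dual K E, g w ≠ 0 := by
        by_contra hcon
        push Not at hcon
        exact hw.2 ((Module.forall_dual_apply_eq_zero_iff K _).1 hcon)
      exact ⟨((g w)⁻¹ • g).smulRight u, by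
        rw [LinearMap.smulRight_apply, LinearMap.smul_apply, smul_eq_mul, inv_mul_cancel₀ hg,
          one_smul]⟩
    have h2 := congrArg (fun F => F w) (hcen T)
    simp only [Module.End.mul_apply] at h2
    rw [hT, Module.End.mem_eigenspace_iff.1 hw.1, map_smul, hT] at h2
    exact h2
  have hsc' : ∀ u ∈ E, (φ ^ M) u = c • u := by
    intro u hu
    have h2 := congrArg Subtype.val (hsc ⟨u, hu⟩)
    rw [hψpow] at h2
    exact h2
  -- the scalar is `μ ^ M`
  have hdvd : (X - C μ) ∣ (X ^ M - C (μ ^ M) : K[X]) := by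
    rw [map_pow]
    exact sub_dvd_pow_sub_pow _ _ _
  obtain ⟨g, hg⟩ := hdvd
  have hcμ : c = μ ^ M := by
    by_contra hne
    have h2 : ∀ k : ℕ, aeval φ ((X ^ M - C (μ ^ M)) ^ k) v = (c - μ ^ M) ^ k • v := by
      intro k
      induction k with
      | zero => rw [pow_zero, pow_zero, map_one, one_smul]; rfl
      | succ k ih =>
        rw [pow_succ', map_mul, Module.End.mul_apply, ih, map_smul, map_sub, LinearMap.sub_apply,
          map_pow, aeval_X, aeval_C, hsc' v hv, Module.algebraMap_end_apply, ← sub_smul, smul_smul,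
          ← pow_succ]
    have h3 := h2 (φ.charpoly.rootMultiplicity μ)
    rw [hg, mul_pow, mul_comm, map_mul, Module.End.mul_apply, pow_mult hv, map_zero] at h3
    rcases smul_eq_zero.1 h3.symm with h4 | h4
    · exact hne (sub_eq_zero.1 ((pow_eq_zero_iff (mem_evs.1 hμ)).1 h4))
    · exact hv0 h4
  -- the cofactor does not vanish at `μ`
  have hgμ : g.eval μ ≠ 0 := by
    have h2 := congrArg (fun P => (derivative P).eval μ) hg
    simp only [derivative_sub, derivative_X_pow, derivative_C, derivative_mul, derivative_X,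
      eval_sub, eval_mul, eval_pow, eval_X, eval_C, eval_add, sub_zero, one_mul, sub_self,
      zero_mul, add_zero] at h2
    rw [← h2]
    exact mul_ne_zero (by exact_mod_cast hMpos.ne') (pow_ne_zero _ (h.ne μ hμ))
  have hcop : IsCoprime ((X - C μ) ^ φ.charpoly.rootMultiplicity μ) g := by
    apply IsCoprime.pow_left
    rw [(Polynomial.irreducible_X_sub_C μ).coprime_iff_not_dvd, dvd_iff_isRoot]
    exact hgμ
  have h2 : aeval φ (X - C μ) v = 0 := by
    refine eq_zero_of_coprime hcop (pow_mult (aeval_mem_ge hv _)) ?_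
    rw [← Module.End.mul_apply, ← map_mul, mul_comm, ← hg, map_sub, LinearMap.sub_apply,
      map_pow, aeval_X, aeval_C, hsc' v hv, Module.algebraMap_end_apply, hcμ, sub_self]
  rw [map_sub, LinearMap.sub_apply, aeval_X, aeval_C, Module.algebraMap_end_apply,
    sub_eq_zero] at h2
  exact h2

/-- All operators commuting with a power of `φ` are combinations of elements of the algebra. -/
lemma mem_span (h : Setup φ ε s R)
    (hirr : ∀ μ, ∀ U ≤ φ.maxGenEigenspace μ, (∀ y, R y → ∀ u ∈ U, y u ∈ U) →
      U = ⊥ ∨ U = φ.maxGenEigenspace μ) {T : Module.End K V} {m : ℕ} (hm : 0 < m)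
    (hT : φ ^ m * T = T * φ ^ m) : T ∈ Submodule.span K {y | R y} := by
  have hpres := preserves h.rat hm hT
  rw [← mul_one T, ← sum_pe φ, Finset.mul_sum]
  apply Submodule.sum_mem
  intro μ _
  obtain ⟨x, hx, hxT⟩ := h.exists_span (hirr μ) (T.restrict (fun v hv => hpres μ v hv))
  have h1 : T * pe φ μ = x * pe φ μ := by
    apply LinearMap.ext
    intro v
    exact (hxT ⟨pe φ μ v, pe_mem φ μ v⟩).symm
  rw [h1]
  exact span_mul_mem h.mul hx (h.aeval_mem _)

/-- The trace form is nondegenerate. -/
lemma eq_zero (h : Setup φ ε s R)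
    (hirr : ∀ μ, ∀ U ≤ φ.maxGenEigenspace μ, (∀ y, R y → ∀ u ∈ U, y u ∈ U) →
      U = ⊥ ∨ U = φ.maxGenEigenspace μ) {y : Module.End K V}
    (hy : ∀ μ, ∀ v ∈ φ.maxGenEigenspace μ, y v ∈ φ.maxGenEigenspace μ)
    (h0 : ∀ x, R x → LinearMap.trace K V (ε * (y * x)) = 0) : y = 0 := by
  have h1 : ∀ x ∈ Submodule.span K {y | R y}, LinearMap.trace K V (ε * (y * x)) = 0 := by
    intro x hx
    induction hx using Submodule.span_induction with
    | mem x hx => exact h0 x hx
    | zero => rw [mul_zero, mul_zero, map_zero]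
    | add x x' _ _ hx hx' => rw [mul_add, mul_add, map_add, hx, hx', add_zero]
    | smul a x _ hx => rw [mul_smul_comm, mul_smul_comm, map_smul, hx, smul_zero]
  have h2 : ∀ μ ∈ evs φ, y * pe φ μ = 0 := by
    intro μ hμ
    -- the trace form on the operators on the eigenspace
    have h3 : ∀ T : Module.End K V, LinearMap.trace K V ((y * pe φ μ) * T) = 0 := by
      intro T
      obtain ⟨x, hx, hxT⟩ := h.exists_span (hirr μ)
        ((pe φ μ * T).restrict (p := φ.maxGenEigenspace μ) (q := φ.maxGenEigenspace μ)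
          (fun v _ => pe_mem φ μ _))
      have h4 : pe φ μ * T * pe φ μ = x * pe φ μ := by
        apply LinearMap.ext
        intro v
        exact (hxT ⟨pe φ μ v, pe_mem φ μ v⟩).symm
      have h5 := h1 (x * pe φ μ) (span_mul_mem h.mul hx (h.aeval_mem _))
      rw [← h4, trace_eps h.eps, Finset.sum_eq_single μ] at h5
      · rcases mul_eq_zero.1 h5 with h6 | h6
        · exact absurd h6 (h.s_ne μ)
        · have h7 : y * (pe φ μ * T * pe φ μ) * pe φ μ = (y * pe φ μ * T) * pe φ μ := by
            calc y * (pe φ μ * T * pe φ μ) * pe φ μ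
                = (y * pe φ μ * T) * (pe φ μ * pe φ μ) := by simp only [mul_assoc]
              _ = _ := by rw [pe_mul_self]
          rw [h7, LinearMap.trace_mul_comm] at h6
          calc LinearMap.trace K V ((y * pe φ μ) * T)
              = LinearMap.trace K V (pe φ μ * (y * pe φ μ * T)) := by
                congr 1
                rw [← mul_assoc, ← mul_assoc, pe_comm hy μ, mul_assoc y (pe φ μ) (pe φ μ),
                  pe_mul_self, mul_assoc]
            _ = 0 := h6
      · intro ν _ hν
        have h6 : y * (pe φ μ * T * pe φ μ) * pe φ ν = 0 := by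
          calc y * (pe φ μ * T * pe φ μ) * pe φ ν
              = (y * pe φ μ * T) * (pe φ μ * pe φ ν) := by simp only [mul_assoc]
            _ = 0 := by rw [pe_mul_ne φ (Ne.symm hν), mul_zero]
        rw [h6, map_zero, mul_zero]
      · intro h'; exact absurd hμ h'
    by_contra hne
    obtain ⟨v, hv⟩ : ∃ v, (y * pe φ μ) v ≠ 0 := by
      by_contra hcon
      push Not at hcon
      exact hne (LinearMap.ext hcon)
    obtain ⟨g, hg⟩ : ∃ g : Module.Dual K V, g ((y * pe φ μ) v) ≠ 0 := by
      by_contra hcon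
      push Not at hcon
      exact hv ((Module.forall_dual_apply_eq_zero_iff K _).1 hcon)
    have h4 := h3 (g.smulRight v)
    have h5 : (y * pe φ μ) * g.smulRight v = g.smulRight ((y * pe φ μ) v) := by
      apply LinearMap.ext
      intro w
      rw [Module.End.mul_apply, LinearMap.smulRight_apply, LinearMap.smulRight_apply, map_smul]
    rw [h5, LinearMap.trace_smulRight] at h4
    exact hg h4
  rw [← mul_one y, ← sum_pe φ, Finset.mul_sum]
  exact Finset.sum_eq_zero h2

end Setup

end Pool.Agent.H934.GA
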