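import Pool.Agent.H934.GA.Core3

/-!
# The dimension of the span of the algebra
-/

open Finset Polynomial Module

namespace Pool.Agent.H934.GA

variable {K : Type*} [Field K] {V : Type*} [AddCommGroup V] [Module K V]
  [Module.Finite K V]

/-- The operators preserving all generalised eigenspaces. -/
def blockOps (φ : Module.End K V) : Submodule K (Module.End K V) where
  carrier := {T | ∀ μ, ∀ v ∈ φ.maxGenEigenspace μ, T v ∈ φ.maxGenEigenspace μ}
  add_mem' ha hb μ v hv := Submodule.add_mem _ (ha μ v hv) (hb μ v hv)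
  zero_mem' _ _ _ := Submodule.zero_mem _
  smul_mem' c _ ha μ v hv := Submodule.smul_mem _ c (ha μ v hv)

variable [IsAlgClosed K]

/-- The restrictions to the generalised eigenspaces. -/
noncomputable def blockMap (φ : Module.End K V) :
    blockOps φ →ₗ[K] ((μ : evs φ) → Module.End K (φ.maxGenEigenspace (μ : K))) where
  toFun T μ := (T : Module.End K V).restrict (T.2 μ)
  map_add' _ _ := rfl
  map_smul' _ _ := rfl

lemma blockMap_bijective (φ : Module.End K V) : Function.Bijective (blockMap φ) := by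
  classical
  constructor
  · rw [← LinearMap.ker_eq_bot, eq_bot_iff]
    intro T hT
    rw [LinearMap.mem_ker] at hT
    rw [Submodule.mem_bot]
    apply Subtype.ext
    change (T : Module.End K V) = 0
    rw [← mul_one (T : Module.End K V), ← sum_pe φ, Finset.mul_sum]
    apply Finset.sum_eq_zero
    intro μ hμ
    apply LinearMap.ext
    intro v
    have h1 := congrFun hT ⟨μ, hμ⟩
    have h2 := congrArg (fun F => ((F ⟨pe φ μ v, pe_mem φ μ v⟩ : φ.maxGenEigenspace μ) : V)) h1
    exact h2
  · intro t
    set T : Module.End K V := ∑ μ : evs φ, (φ.maxGenEigenspace (μ : K)).subtype ∘ₗ t μ ∘ₗ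
      (pe φ μ).codRestrict _ (pe_mem φ μ) with hT
    have hTv : ∀ ν : evs φ, ∀ v (hv : v ∈ φ.maxGenEigenspace (ν : K)), T v = t ν ⟨v, hv⟩ := by
      intro ν v hv
      rw [hT, LinearMap.sum_apply, Finset.sum_eq_single ν]
      · rw [LinearMap.comp_apply, LinearMap.comp_apply, Submodule.subtype_apply]
        congr 2
        exact Subtype.ext (pe_same hv)
      · intro μ _ hne
        have h1 : (pe φ μ).codRestrict _ (pe_mem φ μ) v = 0 :=
          Subtype.ext (pe_ne (fun h => hne (Subtype.ext h)) hv)
        rw [LinearMap.comp_apply, LinearMap.comp_apply, h1, map_zero, map_zero]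
      · intro h'; exact absurd (Finset.mem_univ ν) h'
    have hmem : T ∈ blockOps φ := by
      intro μ v hv
      by_cases hv0 : v = 0
      · rw [hv0, map_zero]; exact Submodule.zero_mem _
      · rw [hTv ⟨μ, mem_evs_of_mem hv hv0⟩ v hv]
        exact Subtype.mem _
    refine ⟨⟨T, hmem⟩, ?_⟩
    funext ν
    apply LinearMap.ext
    intro v
    apply Subtype.ext
    exact hTv ν v v.2

lemma finrank_blockOps (φ : Module.End K V) :
    finrank K (blockOps φ) = ∑ μ ∈ evs φ, φ.charpoly.rootMultiplicity μ ^ 2 := by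
  rw [(LinearEquiv.ofBijective _ (blockMap_bijective φ)).finrank_eq, Module.finrank_pi_fintype,
    ← Finset.sum_coe_sort (evs φ) (fun μ => φ.charpoly.rootMultiplicity μ ^ 2)]
  apply Finset.sum_congr rfl
  intro μ _
  rw [Module.finrank_linearMap, LinearMap.finrank_maxGenEigenspace_eq, sq]

variable [CharZero K]

namespace Setup

variable {φ ε : Module.End K V} {s : K → K} {R : Module.End K V → Prop}

lemma mem_span' (h : Setup φ ε s R)
    (hirr : ∀ μ, ∀ U ≤ φ.maxGenEigenspace μ, (∀ y, R y → ∀ u ∈ U, y u ∈ U) →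
      U = ⊥ ∨ U = φ.maxGenEigenspace μ) {T : Module.End K V} (hpres : T ∈ blockOps φ) :
    T ∈ Submodule.span K {y | R y} := by
  rw [← mul_one T, ← sum_pe φ, Finset.mul_sum]
  apply Submodule.sum_mem
  intro μ _
  obtain ⟨x, hx, hxT⟩ := h.exists_span (hirr μ) (T.restrict (fun v hv => hpres μ v hv))
  have h1 : T * pe φ μ = x * pe φ μ := by
    apply LinearMap.ext
    intro v
    exact (hxT ⟨pe φ μ v, pe_mem φ μ v⟩).symm
  rw [h1]
  exact span_mul_mem h.mul hx (h.aeval_mem _)

lemma span_eq (h : Setup φ ε s R)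
    (hirr : ∀ μ, ∀ U ≤ φ.maxGenEigenspace μ, (∀ y, R y → ∀ u ∈ U, y u ∈ U) →
      U = ⊥ ∨ U = φ.maxGenEigenspace μ) : Submodule.span K {y | R y} = blockOps φ := by
  apply le_antisymm
  · rw [Submodule.span_le]
    intro y hy μ v hv
    exact h.pres hy μ v hv
  · intro T hT
    exact h.mem_span' hirr hT

/-- There are as many independent elements as the dimension of the centraliser. -/
lemma exists_family (h : Setup φ ε s R)
    (hirr : ∀ μ, ∀ U ≤ φ.maxGenEigenspace μ, (∀ y, R y → ∀ u ∈ U, y u ∈ U) →
      U = ⊥ ∨ U = φ.maxGenEigenspace μ) :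
    ∃ y : Fin (∑ μ ∈ evs φ, φ.charpoly.rootMultiplicity μ ^ 2) → Module.End K V,
      (∀ a, R (y a)) ∧ Submodule.span K (Set.range y) = Submodule.span K {y | R y} ∧
        LinearIndependent K y := by
  have hN : finrank K (Submodule.span K {y | R y}) =
      ∑ μ ∈ evs φ, φ.charpoly.rootMultiplicity μ ^ 2 := by
    rw [h.span_eq hirr, finrank_blockOps]
  rw [← hN]
  exact Submodule.exists_fun_fin_finrank_span_eq K {y | R y}

lemma det_ne_zero (h : Setup φ ε s R)
    (hirr : ∀ μ, ∀ U ≤ φ.maxGenEigenspace μ, (∀ y, R y → ∀ u ∈ U, y u ∈ U) →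
      U = ⊥ ∨ U = φ.maxGenEigenspace μ) {N : ℕ} {y y' : Fin N → Module.End K V}
    (hy' : ∀ a, R (y' a)) (hspan : Submodule.span K (Set.range y) = Submodule.span K {y | R y})
    (hli : LinearIndependent K y') :
    (Matrix.of fun a b => LinearMap.trace K V (ε * (y a * y' b))).det ≠ 0 := by
  intro hdet
  obtain ⟨c, hc0, hc⟩ := Matrix.exists_mulVec_eq_zero_iff.2 hdet
  set x : Module.End K V := ∑ b, c b • y' b with hx
  have hxmem : x ∈ blockOps φ := by
    rw [← h.span_eq hirr]
    exact Submodule.sum_mem _ fun b _ => Submodule.smul_mem _ _ (Submodule.subset_span (hy' b))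
  have h1 : ∀ a, LinearMap.trace K V (ε * (y a * x)) = 0 := by
    intro a
    have h2 := congrFun hc a
    simp only [Matrix.mulVec, dotProduct, Matrix.of_apply, Pi.zero_apply] at h2
    rw [hx, Finset.mul_sum, Finset.mul_sum, map_sum, ← h2]
    apply Finset.sum_congr rfl
    intro b _
    rw [mul_smul_comm, mul_smul_comm, map_smul, smul_eq_mul, mul_comm]
  have h2 : ∀ z ∈ Submodule.span K (Set.range y), LinearMap.trace K V (ε * (z * x)) = 0 := by
    intro z hz
    induction hz using Submodule.span_induction with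
    | mem z hz => obtain ⟨a, rfl⟩ := hz; exact h1 a
    | zero => rw [zero_mul, mul_zero, map_zero]
    | add z z' _ _ hz hz' => rw [add_mul, mul_add, map_add, hz, hz', add_zero]
    | smul a z _ hz => rw [smul_mul_assoc, mul_smul_comm, map_smul, hz, smul_zero]
  have hε : ε * x = x * ε := by
    rw [eq_sum_of_scalar h.eps, Finset.sum_mul, Finset.mul_sum]
    apply Finset.sum_congr rfl
    intro μ _
    rw [smul_mul_assoc, mul_smul_comm, pe_comm hxmem]
  have h3 : x = 0 := by
    apply h.eq_zero hirr hxmem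
    intro z hz
    have h4 := h2 z (by rw [hspan]; exact Submodule.subset_span hz)
    rw [← mul_assoc, hε, mul_assoc, LinearMap.trace_mul_comm, mul_assoc]
    exact h4
  apply hc0
  funext b
  exact Fintype.linearIndependent_iff.1 hli c h3 b

end Setup

end Pool.Agent.H934.GA
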