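import Pool.Agent.H447R3.DegDefs
import Pool.Agent.H914R2.HodgeDefs

/-!
# Self-products: multiplicities of eigenvalues, ranks of groups of cycles
-/

open CategoryTheory AlgebraicGeometry

universe u v

namespace Pool.Agent.H934.GA

open Pool.Agent.H914 VarClass Obj WeilCohomology

variable {k : Type u} [Field k] {𝒱 : VarClass k} {ops : CycleOps 𝒱}

/-- The multiplicity of the number `a` as an eigenvalue (a root of the characteristic polynomial)
of `f^*` on the whole cohomology of `X`. -/
noncomputable def eigMult (W : WeilCohomology.{u, v} ops) {X : 𝒱.Obj} (f : X ⟶ X) (a : W.K) : ℕ :=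
  (LinearMap.charpoly (W.map f).toLinearMap).rootMultiplicity a

/-- The sum of the squares of the multiplicities of the eigenvalues of `f^*`. -/
noncomputable def sqSum (W : WeilCohomology.{u, v} ops) {X : 𝒱.Obj} (f : X ⟶ X) : ℕ :=
  ∑ᶠ a, eigMult W f a ^ 2

/-- No ratio of two different eigenvalues of `f^*` is a root of unity. -/
def NoRootRatio (W : WeilCohomology.{u, v} ops) {X : 𝒱.Obj} (f : X ⟶ X) : Prop :=
  ∀ a b, eigMult W f a ≠ 0 → eigMult W f b ≠ 0 → ∀ m : ℕ, 1 ≤ m → a ^ m = b ^ m → a = b

/-- There are `r` cycles of codimension `dim X` on `X × X` whose matrix of intersection numbers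
is invertible: the rank of the group of these cycles modulo numerical equivalence is at least
`r`. -/
def RankAtLeast (ops : CycleOps 𝒱) (X : 𝒱.Obj) (r : ℕ) : Prop :=
  ∃ z : Fin r → (X.prod X).Cycles, (∀ a, (X.prod X).IsCyc X.dim (z a)) ∧
    (Matrix.of fun a b => (X.prod X).V.degCycle (ops.mul (z a) (z b))).det ≠ 0

/-- The `m`-th iterate of `(f × f)^*` multiplies the class `t` by `q ^ (m dim X)`. -/
def IsFixed (W : WeilCohomology.{u, v} ops) {X : 𝒱.Obj} (f : X ⟶ X) (q m : ℕ)
    (t : W.H (X.prod X)) : Prop :=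
  (W.map (squareMap f))^[m] t = (q : W.K) ^ (m * X.dim) • t

/-- The class `t` of degree `2 dim X` on `X × X` is a Tate class over a finite extension of the
base field: for some `m ≥ 1` it is multiplied by `q ^ (m dim X)` by the `m`-th iterate of
`(f × f)^*`. -/
def IsTateClass (W : WeilCohomology.{u, v} ops) {X : 𝒱.Obj} (f : X ⟶ X) (q : ℕ)
    (t : W.H (X.prod X)) : Prop :=
  t ∈ W.gr (X.prod X) (2 * X.dim) ∧ ∃ m : ℕ, 1 ≤ m ∧ IsFixed W f q m t

/-- The Tate conjecture for the classes of degree `2 dim X` on `X × X`, over all finite extensions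
of the base field: the Tate classes are linear combinations of algebraic classes. -/
def TateOnSquare (W : WeilCohomology.{u, v} ops) {X : 𝒱.Obj} (f : X ⟶ X) (q : ℕ) : Prop :=
  ∀ t, IsTateClass W f q t → t ∈ Submodule.span W.K (algClasses W (X.prod X) X.dim)

end Pool.Agent.H934.GA
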