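import Pool.Agent.H934.GA.Lin

/-!
# Generalised eigenspaces and operators preserving them
-/

open Finset Polynomial Module

namespace Pool.Agent.H934.GA

variable {K : Type*} [Field K] {V : Type*} [AddCommGroup V] [Module K V]

lemma eq_zero_of_coprime {φ : Module.End K V} {p r : K[X]} (h : IsCoprime p r) {w : V}
    (hp : aeval φ p w = 0) (hr : aeval φ r w = 0) : w = 0 := by
  obtain ⟨u, v, h⟩ := h
  have h2 : (aeval φ (u * p + v * r)) w = (aeval φ (1 : K[X])) w := by rw [h]
  rw [map_add, map_mul, map_mul, map_one, LinearMap.add_apply, Module.End.mul_apply,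
    Module.End.mul_apply, hp, hr, map_zero, map_zero, add_zero, Module.End.one_apply] at h2
  exact h2.symm

lemma aeval_sub_pow (φ : Module.End K V) (μ : K) (k : ℕ) :
    aeval φ ((X - C μ) ^ k) = (φ - μ • (1 : Module.End K V)) ^ k := by
  rw [map_pow, map_sub, aeval_X, aeval_C, Algebra.algebraMap_eq_smul_one]

lemma aeval_pow_sub (φ : Module.End K V) (m : ℕ) (a : K) (k : ℕ) :
    aeval (φ ^ m) ((X - C a) ^ k) = aeval φ ((X ^ m - C a) ^ k) := by
  rw [map_pow, map_pow, map_sub, map_sub, map_pow, aeval_X, aeval_X, aeval_C, aeval_C]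

lemma mem_ge_iff {φ : Module.End K V} {μ : K} {v : V} :
    v ∈ φ.maxGenEigenspace μ ↔ ∃ k : ℕ, aeval φ ((X - C μ) ^ k) v = 0 := by
  rw [Module.End.mem_maxGenEigenspace]
  simp only [aeval_sub_pow]

lemma aeval_mem_ge {φ : Module.End K V} {μ : K} {v : V} (hv : v ∈ φ.maxGenEigenspace μ)
    (p : K[X]) : aeval φ p v ∈ φ.maxGenEigenspace μ := by
  rw [mem_ge_iff] at hv ⊢
  obtain ⟨k, hk⟩ := hv
  refine ⟨k, ?_⟩
  rw [← Module.End.mul_apply, ← map_mul, mul_comm, map_mul, Module.End.mul_apply, hk, map_zero]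

lemma coprime_pow {μ ν : K} (h : μ ≠ ν) (a b : ℕ) :
    IsCoprime ((X - C μ) ^ a) ((X - C ν) ^ b) :=
  (isCoprime_X_sub_C_of_isUnit_sub (sub_ne_zero.2 h).isUnit).pow

lemma ge_disjoint {φ : Module.End K V} {μ ν : K} (h : μ ≠ ν) {v : V}
    (hv : v ∈ φ.maxGenEigenspace μ) (hv' : v ∈ φ.maxGenEigenspace ν) : v = 0 := by
  rw [mem_ge_iff] at hv hv'
  obtain ⟨a, ha⟩ := hv
  obtain ⟨b, hb⟩ := hv'
  exact eq_zero_of_coprime (coprime_pow h a b) ha hb

variable [Module.Finite K V]

/-- Polynomials which are projections onto the generalised eigenspaces. -/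
lemma exists_projs (φ : Module.End K V) : ∃ e : K → K[X],
    (∀ μ, ∀ v ∈ φ.maxGenEigenspace μ, aeval φ (e μ) v = v) ∧
    (∀ μ ν, μ ≠ ν → ∀ v ∈ φ.maxGenEigenspace ν, aeval φ (e μ) v = 0) := by
  have key : ∀ μ : K, ∃ p : K[X], (∀ v ∈ φ.maxGenEigenspace μ, aeval φ p v = v) ∧
      (∀ ν, μ ≠ ν → ∀ v ∈ φ.maxGenEigenspace ν, aeval φ p v = 0) := by
    intro μ
    have hc0 : φ.charpoly ≠ 0 := (LinearMap.charpoly_monic φ).ne_zero
    obtain ⟨g, hg, hg'⟩ := Polynomial.exists_eq_pow_rootMultiplicity_mul_and_not_dvd _ hc0 μ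
    set a := φ.charpoly.rootMultiplicity μ with ha
    have hcop : ∀ k, IsCoprime ((X - C μ) ^ k) g := fun k =>
      ((Polynomial.irreducible_X_sub_C μ).coprime_iff_not_dvd.2 hg').pow_left
    have hch : aeval φ ((X - C μ) ^ a * g) = 0 := by
      rw [← hg]
      exact LinearMap.aeval_self_charpoly φ
    obtain ⟨u, v, huv⟩ := hcop a
    refine ⟨v * g, ?_, ?_⟩
    · intro w hw
      have h1 : w - aeval φ (v * g) w = aeval φ (u * (X - C μ) ^ a) w := by
        have h2 : (aeval φ (u * (X - C μ) ^ a + v * g)) w = (aeval φ (1 : K[X])) w := by rw [huv]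
        rw [map_add, LinearMap.add_apply, map_one, Module.End.one_apply] at h2
        rw [sub_eq_iff_eq_add]
        exact h2.symm
      have h3 : w - aeval φ (v * g) w ∈ φ.maxGenEigenspace μ :=
        Submodule.sub_mem _ hw (aeval_mem_ge hw _)
      obtain ⟨k, hk⟩ := mem_ge_iff.1 h3
      have h4 : aeval φ g (w - aeval φ (v * g) w) = 0 := by
        rw [h1, ← Module.End.mul_apply, ← map_mul,
          show g * (u * (X - C μ) ^ a) = u * ((X - C μ) ^ a * g) by ring, map_mul, hch, mul_zero,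
          LinearMap.zero_apply]
      have h5 := eq_zero_of_coprime (hcop k) hk h4
      exact (sub_eq_zero.1 h5).symm
    · intro ν hν w hw
      apply ge_disjoint hν _ (aeval_mem_ge hw _)
      rw [mem_ge_iff]
      refine ⟨a, ?_⟩
      rw [← Module.End.mul_apply, ← map_mul,
        show (X - C μ) ^ a * (v * g) = v * ((X - C μ) ^ a * g) by ring, map_mul, hch, mul_zero,
        LinearMap.zero_apply]
  choose e he1 he2 using key
  exact ⟨e, he1, he2⟩

/-- The projection onto a generalised eigenspace. -/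
noncomputable def pe (φ : Module.End K V) (μ : K) : Module.End K V :=
  aeval φ (Classical.choose (exists_projs φ) μ)

lemma pe_same {φ : Module.End K V} {μ : K} {v : V} (hv : v ∈ φ.maxGenEigenspace μ) :
    pe φ μ v = v :=
  (Classical.choose_spec (exists_projs φ)).1 μ v hv

lemma pe_ne {φ : Module.End K V} {μ ν : K} (h : μ ≠ ν) {v : V}
    (hv : v ∈ φ.maxGenEigenspace ν) : pe φ μ v = 0 :=
  (Classical.choose_spec (exists_projs φ)).2 μ ν h v hv

/-- The eigenvalues. -/
noncomputable def evs (φ : Module.End K V) : Finset K := by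
  classical exact φ.charpoly.roots.toFinset

lemma mem_evs {φ : Module.End K V} {μ : K} :
    μ ∈ evs φ ↔ φ.charpoly.rootMultiplicity μ ≠ 0 := by
  classical
  rw [evs, Multiset.mem_toFinset, mem_roots (LinearMap.charpoly_monic φ).ne_zero,
    ← Polynomial.rootMultiplicity_pos (LinearMap.charpoly_monic φ).ne_zero]
  exact Nat.pos_iff_ne_zero

lemma mem_evs_of_mem {φ : Module.End K V} {μ : K} {v : V} (hv : v ∈ φ.maxGenEigenspace μ)
    (hv0 : v ≠ 0) : μ ∈ evs φ := by
  rw [mem_evs, ← LinearMap.finrank_maxGenEigenspace_eq]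
  intro h
  have h2 := Submodule.finrank_eq_zero.1 h
  rw [h2, Submodule.mem_bot] at hv
  exact hv0 hv

lemma exists_mem_of_evs {φ : Module.End K V} {μ : K} (h : μ ∈ evs φ) :
    ∃ v ∈ φ.maxGenEigenspace μ, v ≠ 0 := by
  rw [mem_evs, ← LinearMap.finrank_maxGenEigenspace_eq] at h
  by_contra hcon
  push Not at hcon
  apply h
  have : φ.maxGenEigenspace μ = ⊥ := by
    rw [eq_bot_iff]
    intro v hv
    rw [hcon v hv]
    exact Submodule.zero_mem _
  rw [this, finrank_bot]

section closed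

variable [IsAlgClosed K]

lemma ge_induction (φ : Module.End K V) {p : V → Prop}
    (h : ∀ μ, ∀ v ∈ φ.maxGenEigenspace μ, p v) (hadd : ∀ v w, p v → p w → p (v + w)) (v : V) :
    p v := by
  have h1 : v ∈ ⨆ μ, φ.maxGenEigenspace μ := by
    rw [Module.End.iSup_maxGenEigenspace_eq_top]; trivial
  refine Submodule.iSup_induction (fun μ => φ.maxGenEigenspace μ) (motive := p) h1 h ?_ hadd
  exact h 0 0 (Submodule.zero_mem _)

lemma pe_mem (φ : Module.End K V) (μ : K) (v : V) : pe φ μ v ∈ φ.maxGenEigenspace μ := by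
  classical
  refine ge_induction φ (p := fun v => pe φ μ v ∈ φ.maxGenEigenspace μ) ?_ ?_ v
  · intro ν v hv
    by_cases h : μ = ν
    · subst h
      rw [pe_same hv]; exact hv
    · rw [pe_ne h hv]; exact Submodule.zero_mem _
  · intro v w hv hw
    rw [map_add]
    exact Submodule.add_mem _ hv hw

lemma sum_pe (φ : Module.End K V) : ∑ μ ∈ evs φ, pe φ μ = 1 := by
  classical
  apply LinearMap.ext
  intro v
  refine ge_induction φ (p := fun v => (∑ μ ∈ evs φ, pe φ μ) v = (1 : Module.End K V) v) ?_ ?_ v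
  · intro ν v hv
    rw [LinearMap.sum_apply, Module.End.one_apply]
    by_cases hv0 : v = 0
    · rw [hv0]; simp
    · rw [Finset.sum_eq_single ν]
      · exact pe_same hv
      · intro μ _ hμ
        exact pe_ne hμ hv
      · intro h'; exact absurd (mem_evs_of_mem hv hv0) h'
  · intro v w hv hw
    rw [map_add, map_add, hv, hw]

lemma pe_mul_self (φ : Module.End K V) (μ : K) : pe φ μ * pe φ μ = pe φ μ :=
  LinearMap.ext fun v => pe_same (pe_mem φ μ v)

lemma pe_mul_ne (φ : Module.End K V) {μ ν : K} (h : μ ≠ ν) : pe φ μ * pe φ ν = 0 :=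
  LinearMap.ext fun v => pe_ne h (pe_mem φ ν v)

/-- An operator preserving all generalised eigenspaces commutes with the projections. -/
lemma pe_comm {φ T : Module.End K V}
    (hT : ∀ μ, ∀ v ∈ φ.maxGenEigenspace μ, T v ∈ φ.maxGenEigenspace μ) (μ : K) :
    pe φ μ * T = T * pe φ μ := by
  classical
  apply LinearMap.ext
  intro v
  refine ge_induction φ (p := fun v => (pe φ μ * T) v = (T * pe φ μ) v) ?_ ?_ v
  · intro ν v hv
    rw [Module.End.mul_apply, Module.End.mul_apply]
    by_cases h : μ = ν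
    · subst h
      rw [pe_same hv, pe_same (hT _ _ hv)]
    · rw [pe_ne h hv, pe_ne h (hT _ _ hv), map_zero]
  · intro v w hv hw
    rw [map_add, map_add, hv, hw]

/-- An operator commuting with a power of `φ` preserves the generalised eigenspaces of `φ`, if no
ratio of two different eigenvalues is a root of unity. -/
lemma preserves {φ T : Module.End K V}
    (hrat : ∀ μ ∈ evs φ, ∀ ν ∈ evs φ, ∀ m : ℕ, 0 < m → μ ^ m = ν ^ m → μ = ν)
    {m : ℕ} (hm : 0 < m) (hT : φ ^ m * T = T * φ ^ m) (μ : K) (v : V)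
    (hv : v ∈ φ.maxGenEigenspace μ) : T v ∈ φ.maxGenEigenspace μ := by
  classical
  by_cases hv0 : v = 0
  · rw [hv0, map_zero]; exact Submodule.zero_mem _
  have hμ := mem_evs_of_mem hv hv0
  have hpow : ∀ ν : K, ∀ w ∈ φ.maxGenEigenspace ν, ∃ k : ℕ,
      aeval (φ ^ m) ((X - C (ν ^ m)) ^ k) w = 0 := by
    intro ν w hw
    obtain ⟨k, hk⟩ := mem_ge_iff.1 hw
    refine ⟨k, ?_⟩
    have h1 : (X - C ν) ∣ (X ^ m - C (ν ^ m)) := by
      rw [map_pow]
      exact sub_dvd_pow_sub_pow _ _ _
    obtain ⟨g, hg⟩ := h1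
    rw [aeval_pow_sub, hg, mul_pow, mul_comm, map_mul, Module.End.mul_apply, hk, map_zero]
  obtain ⟨k, hk⟩ := hpow μ v hv
  have hcomm : ∀ p : K[X], aeval (φ ^ m) p * T = T * aeval (φ ^ m) p := by
    intro p
    have h1 : Commute (φ ^ m) T := hT
    have h2 : Commute T (aeval (φ ^ m) p) := by
      induction p using Polynomial.induction_on' with
      | add p r hp hr => rw [map_add]; exact hp.add_right hr
      | monomial n a =>
        rw [aeval_monomial]
        have h3 : Commute T (algebraMap K (Module.End K V) a) := (Algebra.commutes a T).symm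
        exact h3.mul_right (h1.symm.pow_right n)
    exact h2.symm
  have h0 : ∀ ν ∈ evs φ, ν ≠ μ → pe φ ν (T v) = 0 := by
    intro ν hν hne
    obtain ⟨k', hk'⟩ := hpow ν (pe φ ν (T v)) (pe_mem φ ν _)
    refine eq_zero_of_coprime (coprime_pow (μ := ν ^ m) (ν := μ ^ m) ?_ k' k) hk' ?_
    · intro h
      exact hne (hrat ν hν μ hμ m hm h)
    · have h1 : aeval (φ ^ m) ((X - C (μ ^ m)) ^ k) * pe φ ν =
          pe φ ν * aeval (φ ^ m) ((X - C (μ ^ m)) ^ k) := by
        rw [aeval_pow_sub, pe, ← map_mul, mul_comm, map_mul]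
      rw [← Module.End.mul_apply, h1, Module.End.mul_apply, ← Module.End.mul_apply _ T, hcomm,
        Module.End.mul_apply, hk, map_zero, map_zero]
  have h1 := congrArg (fun F => F (T v)) (sum_pe φ)
  simp only [LinearMap.sum_apply, Module.End.one_apply] at h1
  rw [Finset.sum_eq_single μ (fun ν hν hne => h0 ν hν hne) (fun h' => absurd hμ h')] at h1
  rw [← h1]
  exact pe_mem φ μ _

end closed

end Pool.Agent.H934.GA
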