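import Pool.Agent.H934.GA.Wt
import Pool.Agent.H934.GA.Defs
import Pool.Agent.H447R3.SimB
import Pool.Agent.H914R2.GConv

/-!
# The algebra of correspondences of a variety with a Frobenius
-/

open CategoryTheory AlgebraicGeometry Finset

universe u v

namespace Pool.Agent.H934.GA

open Pool.Agent.H914 Pool.Agent.H447 VarClass Obj WeilCohomology

variable {k : Type u} [Field k] {𝒱 : VarClass k} {ops : CycleOps 𝒱}
  {W : WeilCohomology.{u, v} ops} {X : 𝒱.Obj}

/-- The pull-back as an operator. -/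
noncomputable abbrev fs (W : WeilCohomology.{u, v} ops) {X : 𝒱.Obj} (f : X ⟶ X) :
    Module.End W.K (W.H X) :=
  (W.map f).toLinearMap

lemma fs_pow (f : X ⟶ X) (m : ℕ) : fs W f ^ m = fs W (iter f m) := by
  apply LinearMap.ext
  intro a
  exact (map_iter f m a).symm

lemma rop_pow (f : X ⟶ X) (m : ℕ) : ROp W X 0 (fs W f ^ m) := by
  rw [fs_pow]
  exact rop_map _

lemma fs_weight {f : X ⟶ X} {q : ℕ} (hq : 1 < q) (hRH : RiemannHypothesis W X f q) (μ : W.K) :
    ∃ i, (fs W f).maxGenEigenspace μ ≤ W.gr X i ∧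
      (μ ∈ evs (fs W f) → _root_.IsIntegral ℚ μ ∧ μ ≠ 0) := by
  choose P hP0 hPa hPz using hRH
  have hφh : IsHom (W.gr X) 0 (fs W f) := by
    have := rop_opAlg.hom (rop_map (W := W) f)
    simpa using this
  exact exists_weight' (W.isInternal X) hφh W_hbd hq P hP0 hPa hPz μ

lemma exists_sign {f : X ⟶ X} {q : ℕ} (hq : 1 < q) (hRH : RiemannHypothesis W X f q) :
    ∃ s : W.K → W.K, (∀ μ, s μ = 1 ∨ s μ = -1) ∧
      ∀ μ, ∀ v ∈ (fs W f).maxGenEigenspace μ, par (W.isInternal X) v = s μ • v := by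
  choose i hi _ using fs_weight hq hRH
  refine ⟨fun μ => (-1) ^ i μ, fun μ => ?_, fun μ v hv => ?_⟩
  · exact neg_one_pow_eq_or _ _
  · exact scal_apply _ _ (hi μ hv)

variable [IsAlgClosed W.K]

/-- There is a zero cycle of nonzero degree. -/
lemma exists_point {f : X ⟶ X} {q : ℕ} (hq : 1 < q) (hRH : RiemannHypothesis W X f q)
    (h1 : (1 : W.H X) ≠ 0) : ∃ z, X.IsCyc X.dim z ∧ W.tr X (W.cl X z) ≠ 0 := by
  by_contra hcon
  push Not at hcon
  apply h1
  obtain ⟨s, hs, heps⟩ := exists_sign hq hRH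
  refine eq_zero_of_str (φ := fs W f) (ε := par (W.isInternal X)) heps
    (fun μ => by rcases hs μ with h | h <;> rw [h] <;> simp)
    (fun μ hμ => ((fs_weight hq hRH μ).choose_spec.2 hμ).1) ?_ 1
  intro j
  obtain ⟨z, hz, hz'⟩ := cyc_of_rop (rop_pow (W := W) f j)
  obtain ⟨w, hw, hw'⟩ := cyc_of_rop (rop_opAlg (W := W) (X := X)).one
  have h2 := str_eq_deg (W := W) (by omega) hz hw
  rw [hz', hw', mul_one] at h2
  rw [h2]
  have hc : (X.prod X).IsCyc (X.dim + X.dim) (ops.mul z (ops.pull (swap X X) w)) :=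
    ops.mul_mem hz (ops.pull_mem _ hw)
  have h3 := W.tr_cl (X := X.prod X) (z := ops.mul z (ops.pull (swap X X) w))
    (by rw [dim_prod]; exact hc)
  have h4 := hcon (ops.push (fst X X) (ops.mul z (ops.pull (swap X X) w))) (by
    apply ops.push_mem _ hc
    rw [dim_prod]
    omega)
  have h5 := W.tr_push (fst X X) (W.cl _ (ops.mul z (ops.pull (swap X X) w))) 1
  rw [mul_one, map_one, mul_one, ← W.cl_push, h4] at h5
  rw [← h3, ← h5]

/-- Operators given by classes multiplied by the right power commute with a power. -/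
lemma comm_of_pow {f : X ⟶ X} {q : ℕ} (hq : 1 < q)
    (hF : FrobeniusOnCycles W (X.prod X) (squareMap f) q) (hRH : RiemannHypothesis W X f q)
    {t : W.H (X.prod X)} {m : ℕ} (hm : 1 ≤ m)
    (ht : ((W.map (squareMap f)).toLinearMap ^ m) t = (q : W.K) ^ (m * X.dim) • t) :
    ∃ M : ℕ, 0 < M ∧ fs W f ^ M * W.corr t = W.corr t * fs W f ^ M := by
  by_cases h1 : (1 : W.H X) = 0
  · refine ⟨1, one_pos, LinearMap.ext fun a => ?_⟩
    rw [← one_mul ((fs W f ^ 1 * W.corr t) a), h1, zero_mul,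
      ← one_mul ((W.corr t * fs W f ^ 1) a), h1, zero_mul]
  obtain ⟨zb, hzb, hzb0⟩ := exists_point hq hRH h1
  obtain ⟨mb, hmb1, hmb⟩ := frob_single hF ⟨_, hzb0⟩ hzb
  set M := mb * m with hM
  have hM1 : 0 < M := Nat.mul_pos (by omega) (by omega)
  set ψ : X ⟶ X := iter f M with hψ
  set Q : W.K := (q : W.K) ^ (M * X.dim) with hQ
  have hQ0 : Q ≠ 0 := pow_ne_zero _ (by exact_mod_cast (by omega : q ≠ 0))
  have hψb : W.map ψ (W.cl X zb) = Q • W.cl X zb := hmb m
  have hψt : W.map (squareMap ψ) t = Q • t := by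
    have h2 := pow_mul_smul ht mb
    rw [map_squareMap_pow, mul_comm m mb] at h2
    exact h2
  have hδ : ∀ a, W.tr X (W.map ψ a) = Q * W.tr X a := fun a =>
    tr_map_of_top (W.cl_mem hzb) hzb0 hψb a
  refine ⟨M, hM1, ?_⟩
  rw [fs_pow]
  apply LinearMap.ext
  intro a
  have h2 := corr_squareMap hδ t a
  rw [hψt, corr_smul, LinearMap.smul_apply] at h2
  change W.map ψ (W.corr t a) = W.corr t (W.map ψ a)
  exact (smul_right_injective _ hQ0 h2).symm

/-- The algebra of correspondences. -/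
lemma exists_setup {f : X ⟶ X} {q : ℕ} (hq : 1 < q)
    (hF : FrobeniusOnCycles W (X.prod X) (squareMap f) q) (hRH : RiemannHypothesis W X f q)
    (hN : NoRootRatio W f) :
    ∃ s, Setup (fs W f) (par (W.isInternal X)) s (ROp W X 0) := by
  obtain ⟨s, hs, heps⟩ := exists_sign hq hRH
  refine ⟨s, ?_⟩
  constructor
  · exact rop_opAlg.one
  · intro x y hx hy
    exact rop_opAlg.cast (rop_opAlg.mul hx hy) (by ring)
  · exact rop_map f
  · intro x hx
    obtain ⟨z, hz, rfl⟩ := cyc_of_rop hx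
    obtain ⟨m, hm, h2⟩ := hF X.dim z hz
    rw [cl_pull_iter] at h2
    exact comm_of_pow hq hF hRH hm h2
  · exact rop_str
  · exact heps
  · exact hs
  · exact fun μ hμ => ((fs_weight hq hRH μ).choose_spec.2 hμ).1
  · intro μ hμ ν hν m hm h2
    exact hN μ ν (mem_evs.1 hμ) (mem_evs.1 hν) m hm h2
  · exact fun μ hμ => ((fs_weight hq hRH μ).choose_spec.2 hμ).2

omit [IsAlgClosed W.K] in
lemma sqSum_eq (f : X ⟶ X) :
    sqSum W f = ∑ μ ∈ evs (fs W f), (fs W f).charpoly.rootMultiplicity μ ^ 2 := by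
  rw [sqSum]
  apply finsum_eq_sum_of_support_subset
  intro μ hμ
  rw [Function.mem_support] at hμ
  rw [Finset.mem_coe, mem_evs]
  intro h0
  apply hμ
  rw [eigMult, h0]
  rfl

omit [IsAlgClosed W.K] in
/-- The determinants. -/
lemma det_cast {N : ℕ} (z w : Fin N → (X.prod X).Cycles)
    (hz : ∀ a, (X.prod X).IsCyc X.dim (z a)) (hw : ∀ a, (X.prod X).IsCyc X.dim (w a)) :
    (Matrix.of fun a b => LinearMap.trace W.K (W.H X) (par (W.isInternal X) *
      (W.corr (W.cl _ (z a)) * W.corr (W.cl _ (ops.pull (swap X X) (w b)))))).det =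
    (((Matrix.of fun a b => (X.prod X).V.degCycle (ops.mul (z a) (w b))).det : ℚ) : W.K) := by
  have h1 : (Matrix.of fun a b => LinearMap.trace W.K (W.H X) (par (W.isInternal X) *
      (W.corr (W.cl _ (z a)) * W.corr (W.cl _ (ops.pull (swap X X) (w b)))))) =
      (Matrix.of fun a b => (X.prod X).V.degCycle (ops.mul (z a) (w b))).map
        (Rat.castHom W.K) := by
    ext a b
    rw [Matrix.of_apply, Matrix.map_apply, Matrix.of_apply, Rat.coe_castHom,
      ← tr_mul_cl (W := W) (hz a) (hw b) (by rw [dim_prod]), tr_mul_eq_trace (W.cl_mem (hz a)),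
      W.cl_pull, mul_assoc]
  rw [h1, ← RingHom.mapMatrix_apply, ← RingHom.map_det]
  rfl

end Pool.Agent.H934.GA
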