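import Mathlib

/-!
# Ranks of Gram matrices, irreducible algebras of operators
-/

open Finset Polynomial

namespace Pool.Agent.H934.GA

section rank

variable {K : Type*} [Field K]

/-- The rank of the matrix of the values of a bilinear form on two families of vectors is at most
the dimension of the space. -/
lemma rank_gram_le {E : Type*} [AddCommGroup E] [Module K E] [Module.Finite K E]
    (β : E →ₗ[K] E →ₗ[K] K) {ρ : ℕ} (A B : Fin ρ → E) :
    (Matrix.of fun a b => β (A a) (B b)).rank ≤ Module.finrank K E := by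
  set e := Module.finBasis K E with he
  have h1 : (Matrix.of fun a b => β (A a) (B b)) =
      (Matrix.of fun (a : Fin ρ) (k : Fin (Module.finrank K E)) => e.repr (A a) k) *
        (Matrix.of fun (k : Fin (Module.finrank K E)) (b : Fin ρ) => β (e k) (B b)) := by
    ext a b
    rw [Matrix.mul_apply]
    simp only [Matrix.of_apply]
    conv_lhs => rw [← e.sum_repr (A a), map_sum, LinearMap.sum_apply]
    apply Finset.sum_congr rfl
    intro k _
    rw [map_smul, LinearMap.smul_apply, smul_eq_mul]
  rw [h1]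
  refine (Matrix.rank_mul_le_left _ _).trans ((Matrix.rank_le_card_width _).trans ?_)
  simp

lemma rank_add_le {m n : Type*} [Fintype n] [Fintype m] [DecidableEq n] (A B : Matrix m n K) :
    (A + B).rank ≤ A.rank + B.rank := by
  rw [Matrix.rank, Matrix.rank, Matrix.rank]
  refine le_trans ?_ (Submodule.finrank_add_le_finrank_add_finrank _ _)
  apply Submodule.finrank_mono
  rintro _ ⟨x, rfl⟩
  rw [Matrix.mulVecLin_apply, Matrix.add_mulVec]
  exact Submodule.add_mem_sup ⟨x, rfl⟩ ⟨x, rfl⟩

lemma rank_sum_le {ι m n : Type*} [Fintype n] [Fintype m] [DecidableEq n] (s : Finset ι)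
    (M : ι → Matrix m n K) : (∑ i ∈ s, M i).rank ≤ ∑ i ∈ s, (M i).rank := by
  classical
  induction s using Finset.induction_on with
  | empty => simp
  | insert i s hi ih =>
    rw [Finset.sum_insert hi, Finset.sum_insert hi]
    exact (rank_add_le _ _).trans (Nat.add_le_add_left ih _)

lemma rank_block {k : Type*} [Field k] {ρ : ℕ} (r s : ℕ) (e : Fin ρ ≃ Fin r ⊕ Fin s) :
    ((Matrix.fromBlocks 1 0 0 0 : Matrix (Fin r ⊕ Fin s) (Fin r ⊕ Fin s) k).submatrix
      e e).rank = r := by
  classical
  have h5 : (Matrix.fromBlocks 1 0 0 0 : Matrix (Fin r ⊕ Fin s) (Fin r ⊕ Fin s) k) =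
      Matrix.diagonal (Sum.elim (fun _ => 1) (fun _ => 0)) := by
    ext i j
    rcases i with a | a <;> rcases j with b | b
    · simp [Matrix.one_apply, Matrix.diagonal_apply]
    · simp
    · simp
    · simp [Matrix.diagonal_apply]
  rw [Matrix.rank_submatrix, h5, Matrix.rank_diagonal]
  have h6 : Fintype.card {i : Fin r ⊕ Fin s // (Sum.elim (fun _ => (1 : k)) (fun _ => 0) : _ → k) i ≠ 0}
      = Fintype.card (Fin r) := by
    apply Fintype.card_congr
    refine ⟨fun x => match x with
      | ⟨Sum.inl a, _⟩ => a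
      | ⟨Sum.inr _, h⟩ => absurd rfl h, fun a => ⟨Sum.inl a, one_ne_zero⟩, ?_, fun a => rfl⟩
    rintro ⟨a | a, h⟩
    · rfl
    · exact absurd rfl h
  rw [h6, Fintype.card_fin]

/-- The rank of a matrix is not changed by an extension of the field. -/
lemma rank_map {L : Type*} [Field L] (σ : K →+* L) {ρ : ℕ} (M : Matrix (Fin ρ) (Fin ρ) K) :
    (M.map σ).rank = M.rank := by
  obtain ⟨V, U, e, hV, hU, h⟩ := Matrix.exists_rank_normal_form M
  have hV' : IsUnit (V.map σ) := by
    have := hV.map (RingHom.mapMatrix (m := Fin ρ) σ)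
    simpa using this
  have hU' : IsUnit (U.map σ) := by
    have := hU.map (RingHom.mapMatrix (m := Fin ρ) σ)
    simpa using this
  have h2 : V.map σ * M.map σ * U.map σ =
      ((Matrix.fromBlocks 1 0 0 0 : Matrix (Fin M.rank ⊕ Fin (Fintype.card (Fin ρ) - M.rank))
        (Fin M.rank ⊕ Fin (Fintype.card (Fin ρ) - M.rank)) L).submatrix e e) := by
    rw [← Matrix.map_mul, ← Matrix.map_mul, h]
    ext i j
    rw [Matrix.map_apply, Matrix.submatrix_apply, Matrix.submatrix_apply]
    rcases e i with a | a <;> rcases e j with b | b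
    · simp [Matrix.one_apply, apply_ite σ]
    · simp
    · simp
    · simp
  have h3 : (M.map σ).rank = (V.map σ * M.map σ * U.map σ).rank := by
    rw [Matrix.rank_mul_eq_left_of_isUnit_det _ _ ((Matrix.isUnit_iff_isUnit_det _).1 hU'),
      Matrix.rank_mul_eq_right_of_isUnit_det _ _ ((Matrix.isUnit_iff_isUnit_det _).1 hV')]
  have h4 : M.rank = (V * M * U).rank := by
    rw [Matrix.rank_mul_eq_left_of_isUnit_det _ _ ((Matrix.isUnit_iff_isUnit_det _).1 hU),
      Matrix.rank_mul_eq_right_of_isUnit_det _ _ ((Matrix.isUnit_iff_isUnit_det _).1 hV)]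
  rw [h3, h2, rank_block]

end rank

end Pool.Agent.H934.GA
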