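import Pool.Agent.H934.GA.Ev

/-!
# Traces on the generalised eigenspaces
-/

open Finset Polynomial Module

namespace Pool.Agent.H934.GA

section one

variable {K : Type*} [Field K] {V : Type*} [AddCommGroup V] [Module K V] [Module.Finite K V]

/-- On a generalised eigenspace the power given by the multiplicity vanishes. -/
lemma pow_mult {φ : Module.End K V} {μ : K} {v : V} (hv : v ∈ φ.maxGenEigenspace μ) :
    aeval φ ((X - C μ) ^ φ.charpoly.rootMultiplicity μ) v = 0 := by
  have hc0 : φ.charpoly ≠ 0 := (LinearMap.charpoly_monic φ).ne_zero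
  obtain ⟨g, hg, hg'⟩ := Polynomial.exists_eq_pow_rootMultiplicity_mul_and_not_dvd _ hc0 μ
  set a := φ.charpoly.rootMultiplicity μ with ha
  obtain ⟨k, hk⟩ := mem_ge_iff.1 (aeval_mem_ge hv ((X - C μ) ^ a))
  have hcop : IsCoprime ((X - C μ) ^ k) g :=
    ((Polynomial.irreducible_X_sub_C μ).coprime_iff_not_dvd.2 hg').pow_left
  refine eq_zero_of_coprime hcop hk ?_
  rw [← Module.End.mul_apply, ← map_mul, mul_comm, ← hg, LinearMap.aeval_self_charpoly,
    LinearMap.zero_apply]

variable [IsAlgClosed K]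

lemma eq_sum_of_scalar {φ ε : Module.End K V} {s : K → K}
    (heps : ∀ μ, ∀ v ∈ φ.maxGenEigenspace μ, ε v = s μ • v) :
    ε = ∑ μ ∈ evs φ, s μ • pe φ μ := by
  conv_lhs => rw [← mul_one ε, ← sum_pe φ, Finset.mul_sum]
  apply Finset.sum_congr rfl
  intro μ _
  apply LinearMap.ext
  intro v
  rw [Module.End.mul_apply, heps _ _ (pe_mem φ μ v), LinearMap.smul_apply]

lemma trace_eps {φ ε : Module.End K V} {s : K → K}
    (heps : ∀ μ, ∀ v ∈ φ.maxGenEigenspace μ, ε v = s μ • v) (z : Module.End K V) :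
    LinearMap.trace K V (ε * z) = ∑ μ ∈ evs φ, s μ * LinearMap.trace K V (z * pe φ μ) := by
  conv_lhs => rw [eq_sum_of_scalar heps, Finset.sum_mul, map_sum]
  apply Finset.sum_congr rfl
  intro μ _
  rw [smul_mul_assoc, map_smul, smul_eq_mul, LinearMap.trace_mul_comm]

lemma isNilpotent_pow_sub (φ : Module.End K V) (μ : K) (n : ℕ) :
    IsNilpotent ((φ ^ n - μ ^ n • 1) * pe φ μ) := by
  set a := φ.charpoly.rootMultiplicity μ with ha
  refine ⟨a + 1, ?_⟩
  have h1 : φ ^ n - μ ^ n • (1 : Module.End K V) = aeval φ (X ^ n - C (μ ^ n)) := by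
    rw [map_sub, map_pow, aeval_X, aeval_C, Algebra.algebraMap_eq_smul_one]
  have h2 : Commute (φ ^ n - μ ^ n • (1 : Module.End K V)) (pe φ μ) := by
    rw [h1, pe]
    exact (Commute.all _ _).map (aeval φ)
  rw [h2.mul_pow]
  have h3 : (X - C μ) ∣ (X ^ n - C (μ ^ n)) := by
    rw [map_pow]
    exact sub_dvd_pow_sub_pow _ _ _
  obtain ⟨g, hg⟩ := h3
  apply LinearMap.ext
  intro v
  rw [pow_succ (pe φ μ), ← mul_assoc, Module.End.mul_apply, Module.End.mul_apply,
    LinearMap.zero_apply]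
  have h4 : (pe φ μ ^ a) (pe φ μ v) ∈ φ.maxGenEigenspace μ := by
    rw [← Module.End.mul_apply, ← pow_succ, pow_succ', Module.End.mul_apply]
    exact pe_mem φ μ _
  rw [h1, ← map_pow, hg, mul_pow, pow_succ (X - C μ),
    show (X - C μ) ^ a * (X - C μ) * g ^ (a + 1) = ((X - C μ) * g ^ (a + 1)) * (X - C μ) ^ a by
      ring, map_mul, Module.End.mul_apply, pow_mult h4, map_zero]

/-- The traces of `φ ^ n z` on a generalised eigenspace. -/
lemma trace_pow_mul {φ z : Module.End K V} {μ : K} {n : ℕ} (h1 : φ ^ n * z = z * φ ^ n)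
    (h2 : pe φ μ * z = z * pe φ μ) :
    LinearMap.trace K V (φ ^ n * z * pe φ μ) = μ ^ n * LinearMap.trace K V (z * pe φ μ) := by
  have h3 : IsNilpotent (((φ ^ n - μ ^ n • 1) * pe φ μ) * z) := by
    refine Commute.isNilpotent_mul_right ?_ (isNilpotent_pow_sub φ μ n)
    have h4 : Commute (φ ^ n - μ ^ n • (1 : Module.End K V)) z := by
      refine Commute.sub_left h1 ?_
      exact (Commute.one_left z).smul_left _
    exact Commute.mul_left h4 h2
  have h5 := (LinearMap.isNilpotent_trace_of_isNilpotent h3).eq_zero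
  have h6 : φ ^ n * z * pe φ μ =
      ((φ ^ n - μ ^ n • 1) * pe φ μ) * z + μ ^ n • (z * pe φ μ) := by
    rw [mul_assoc, mul_assoc, h2, sub_mul, smul_mul_assoc, one_mul, sub_add_cancel]
  rw [h6, map_add, h5, zero_add, map_smul, smul_eq_mul]

end one

section Npol

variable {K : Type*} [Field K] [CharZero K]

/-- The polynomial with the values given by the moments `r`. -/
noncomputable def Npol (Q : ℚ[X]) (r : ℕ → ℚ) : ℚ[X] :=
  ∑ k ∈ range (Q.natDegree + 1), C (Q.coeff k) * ∑ j ∈ range k, C (r j) * X ^ (k - 1 - j)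

lemma aeval_Npol (Q : ℚ[X]) (r : ℕ → ℚ) (y : K) :
    aeval y (Npol Q r) = ∑ k ∈ range (Q.natDegree + 1), (Q.coeff k : K) *
      ∑ j ∈ range k, (r j : K) * y ^ (k - 1 - j) := by
  rw [Npol, map_sum]
  apply Finset.sum_congr rfl
  intro k _
  rw [map_mul, aeval_C, map_sum]
  congr 1
  apply Finset.sum_congr rfl
  intro j _
  rw [map_mul, aeval_C, map_pow, aeval_X]
  rfl

/-- The divided difference. -/
lemma dd_ne (Q : ℚ[X]) {x y : K} (hx : aeval x Q = 0) (hy : aeval y Q = 0) (h : x ≠ y) :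
    ∑ k ∈ range (Q.natDegree + 1), (Q.coeff k : K) * ∑ j ∈ range k, x ^ j * y ^ (k - 1 - j) = 0 := by
  have h1 : (∑ k ∈ range (Q.natDegree + 1), (Q.coeff k : K) *
      ∑ j ∈ range k, x ^ j * y ^ (k - 1 - j)) * (x - y) = 0 := by
    rw [Finset.sum_mul]
    have h2 : ∀ k ∈ range (Q.natDegree + 1), (Q.coeff k : K) *
        (∑ j ∈ range k, x ^ j * y ^ (k - 1 - j)) * (x - y) =
        Q.coeff k • x ^ k - Q.coeff k • y ^ k := by
      intro k _
      rw [mul_assoc, (Commute.all x y).geom_sum₂_mul, mul_sub, Algebra.smul_def, Algebra.smul_def]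
      rfl
    rw [Finset.sum_congr rfl h2, Finset.sum_sub_distrib, ← aeval_eq_sum_range,
      ← aeval_eq_sum_range, hx, hy, sub_zero]
  rcases mul_eq_zero.1 h1 with h2 | h2
  · exact h2
  · exact absurd (sub_eq_zero.1 h2) h

lemma dd_same (Q : ℚ[X]) (y : K) :
    ∑ k ∈ range (Q.natDegree + 1), (Q.coeff k : K) * ∑ j ∈ range k, y ^ j * y ^ (k - 1 - j) =
      aeval y (derivative Q) := by
  rw [Polynomial.derivative_apply, Polynomial.sum_over_range _ (fun n => by simp), map_sum]
  apply Finset.sum_congr rfl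
  intro k _
  rw [geom_sum₂_self, map_mul, aeval_C, map_pow, aeval_X, map_mul, ← mul_assoc]
  congr 1
  rw [map_natCast]
  rfl

/-- The values of the polynomial given by the moments of a finite sum of exponentials. -/
lemma Npol_value {ι : Type*} (Q : ℚ[X]) (r : ℕ → ℚ) (L : Finset ι) (x w : ι → K)
    (hr : ∀ j, (r j : K) = ∑ i ∈ L, w i * x i ^ j) (y : K) :
    aeval y (Npol Q r) = ∑ i ∈ L, w i * ∑ k ∈ range (Q.natDegree + 1), ((Q.coeff k : K) *
        ∑ j ∈ range k, x i ^ j * y ^ (k - 1 - j)) := by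
  rw [aeval_Npol]
  have h1 : ∀ k ∈ range (Q.natDegree + 1), (Q.coeff k : K) *
      ∑ j ∈ range k, (r j : K) * y ^ (k - 1 - j) = ∑ i ∈ L, w i * ((Q.coeff k : K) *
        ∑ j ∈ range k, x i ^ j * y ^ (k - 1 - j)) := by
    intro k _
    have h2 : ∀ j ∈ range k, (r j : K) * y ^ (k - 1 - j) =
        ∑ i ∈ L, w i * (x i ^ j * y ^ (k - 1 - j)) := by
      intro j _
      rw [hr, Finset.sum_mul]
      exact Finset.sum_congr rfl fun i _ => by ring
    rw [Finset.sum_congr rfl h2, Finset.sum_comm, Finset.mul_sum]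
    apply Finset.sum_congr rfl
    intro i _
    rw [← Finset.mul_sum]
    ring
  rw [Finset.sum_congr rfl h1, Finset.sum_comm]
  apply Finset.sum_congr rfl
  intro i hi
  rw [← Finset.mul_sum]

lemma Npol_mem {ι : Type*} (Q : ℚ[X]) (r : ℕ → ℚ) (L : Finset ι) (x w : ι → K)
    (hr : ∀ j, (r j : K) = ∑ i ∈ L, w i * x i ^ j) (hQ : ∀ i ∈ L, aeval (x i) Q = 0) {i : ι}
    (hi : i ∈ L) (hinj : ∀ i' ∈ L, x i' = x i → i' = i) :
    aeval (x i) (Npol Q r) = w i * aeval (x i) (derivative Q) := by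
  classical
  rw [Npol_value Q r L x w hr, Finset.sum_eq_single i, dd_same]
  · intro i' hi' hne
    rw [dd_ne Q (hQ i' hi') (hQ i hi) (fun h => hne (hinj i' hi' h)), mul_zero]
  · intro h; exact absurd hi h

lemma Npol_notMem {ι : Type*} (Q : ℚ[X]) (r : ℕ → ℚ) (L : Finset ι) (x w : ι → K)
    (hr : ∀ j, (r j : K) = ∑ i ∈ L, w i * x i ^ j) (hQ : ∀ i ∈ L, aeval (x i) Q = 0) {y : K}
    (hy : aeval y Q = 0) (hne : ∀ i ∈ L, x i ≠ y) : aeval y (Npol Q r) = 0 := by
  rw [Npol_value Q r L x w hr]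
  apply Finset.sum_eq_zero
  intro i hi
  rw [dd_ne Q (hQ i hi) hy (hne i hi), mul_zero]

/-- A separable polynomial with given algebraic roots. -/
lemma exists_separable {ι : Type*} (L : Finset ι) (x : ι → K) (hx : ∀ i ∈ L, IsIntegral ℚ (x i)) :
    ∃ Q : ℚ[X], Q.Separable ∧ ∀ i ∈ L, aeval (x i) Q = 0 := by
  classical
  set T : Finset ℚ[X] := L.image (fun i => minpoly ℚ (x i)) with hT
  refine ⟨∏ P ∈ T, P, ?_, ?_⟩
  · apply Polynomial.separable_prod'
    · intro P hP P' hP' hne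
      obtain ⟨i, hi, rfl⟩ := Finset.mem_image.1 hP
      obtain ⟨i', hi', rfl⟩ := Finset.mem_image.1 hP'
      rw [(minpoly.irreducible (hx i hi)).coprime_iff_not_dvd]
      intro h
      apply hne
      have h2 := (minpoly.irreducible (hx i hi)).associated_of_dvd
        (minpoly.irreducible (hx i' hi')) h
      exact eq_of_monic_of_associated (minpoly.monic (hx i hi)) (minpoly.monic (hx i' hi')) h2
    · intro P hP
      obtain ⟨i, hi, rfl⟩ := Finset.mem_image.1 hP
      exact (minpoly.irreducible (hx i hi)).separable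
  · intro i hi
    rw [map_prod]
    apply Finset.prod_eq_zero (Finset.mem_image_of_mem _ hi)
    exact minpoly.aeval _ _

/-- The rank of a matrix of values of rational polynomials is the same at conjugate numbers. -/
lemma rank_conj {ρ : ℕ} (N : Matrix (Fin ρ) (Fin ρ) ℚ[X]) {x y : K} (hx : IsIntegral ℚ x)
    (hy : aeval y (minpoly ℚ x) = 0) :
    (N.map fun g => aeval x g).rank = (N.map fun g => aeval y g).rank := by
  set P := minpoly ℚ x with hP
  have : Fact (Irreducible P) := ⟨minpoly.irreducible hx⟩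
  have key : ∀ z : K, ∀ hz : aeval z P = 0,
      (N.map fun g => aeval z g).rank = (N.map (AdjoinRoot.mk P)).rank := by
    intro z hz
    rw [← rank_map (AdjoinRoot.lift (algebraMap ℚ K) z hz)]
    congr 1
  rw [key x (minpoly.aeval _ _), key y hy]

end Npol

end Pool.Agent.H934.GA
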