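import Pool.Agent.H934.GA.Core4
import Pool.Agent.H914R2.Core3

/-!
# Weights of the generalised eigenspaces
-/

open Finset Polynomial Module

namespace Pool.Agent.H934.GA

open Pool.Agent.H914

variable {K : Type*} [Field K] [CharZero K] {V : Type*} [AddCommGroup V] [Module K V]
  [Module.Finite K V] {gr : ℕ → Submodule K V}

/-- The weight of a generalised eigenspace. -/
lemma exists_weight' (h : DirectSum.IsInternal gr) {φ : Module.End K V} (hφh : IsHom gr 0 φ)
    {N : ℕ} (hbd : ∀ i, N ≤ i → gr i = ⊥) {q : ℕ} (hq : 1 < q) (P : ℕ → ℚ[X])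
    (hP0 : ∀ i, P i ≠ 0)
    (hPa : ∀ i, ∀ a ∈ gr i, aeval φ ((P i).map (algebraMap ℚ K)) a = 0)
    (hPz : ∀ i, ∀ z : ℂ, aeval z (P i) = 0 → ‖z‖ ^ 2 = (q : ℝ) ^ i) (μ : K) :
    ∃ i, φ.maxGenEigenspace μ ≤ gr i ∧ (μ ∈ evs φ → _root_.IsIntegral ℚ μ ∧ μ ≠ 0) := by
  classical
  have hcop : ∀ i j, i ≠ j → IsCoprime (P i) (P j) := by
    intro i j hij
    rw [Polynomial.isCoprime_iff_aeval_ne_zero_of_isAlgClosed ℚ ℂ]
    intro a
    by_contra h0
    push Not at h0
    have h1 := hPz i a h0.1
    have h2 := hPz j a h0.2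
    rw [h1] at h2
    apply hij
    have h3 : (1 : ℝ) < q := by exact_mod_cast hq
    exact (pow_right_injective₀ (by linarith) h3.ne') h2
  have hc1 : ∀ (i : ℕ) (p : K[X]), proj h i * aeval φ p = aeval φ p * proj h i := by
    intro i p
    have h2 : Commute (proj h i) φ := hφh.proj_comm h i
    induction p using Polynomial.induction_on' with
    | add p r hp hr => rw [map_add, mul_add, add_mul, hp, hr]
    | monomial n a =>
      rw [aeval_monomial]
      have h3 : Commute (proj h i) (algebraMap K (Module.End K V) a) :=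
        (Algebra.commutes a _).symm
      exact (h3.mul_right (h2.pow_right n)).eq
  -- a component not zero gives a root
  have hroot : ∀ i, ∀ v ∈ φ.maxGenEigenspace μ, proj h i v ≠ 0 → aeval μ (P i) = 0 := by
    intro i v hv hne
    by_contra hcon
    apply hne
    obtain ⟨k, hk⟩ := mem_ge_iff.1 hv
    refine eq_zero_of_coprime (φ := φ) (p := (X - C μ) ^ k) (r := (P i).map (algebraMap ℚ K))
      ?_ ?_ ?_
    · apply IsCoprime.pow_left
      rw [(Polynomial.irreducible_X_sub_C μ).coprime_iff_not_dvd, dvd_iff_isRoot, IsRoot,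
        eval_map_algebraMap]
      exact hcon
    · rw [← Module.End.mul_apply, ← hc1, Module.End.mul_apply, hk, map_zero]
    · exact hPa i _ (proj_mem h i v)
  have hsum : ∀ v, v = ∑ i ∈ range N, proj h i v := by
    intro v
    have h2 := congrArg (fun F => F v) (sum_proj h hbd)
    simp only [LinearMap.sum_apply, Module.End.one_apply] at h2
    exact h2.symm
  by_cases hbot : ∀ v ∈ φ.maxGenEigenspace μ, v = 0
  · refine ⟨0, fun v hv => by rw [hbot v hv]; exact Submodule.zero_mem _, fun hμ => ?_⟩
    obtain ⟨v, hv, hv0⟩ := exists_mem_of_evs hμ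
    exact absurd (hbot v hv) hv0
  · push Not at hbot
    obtain ⟨v, hv, hv0⟩ := hbot
    obtain ⟨i, hi⟩ : ∃ i, proj h i v ≠ 0 := by
      by_contra hcon
      push Not at hcon
      apply hv0
      rw [hsum v]
      exact Finset.sum_eq_zero fun i _ => hcon i
    have hri := hroot i v hv hi
    refine ⟨i, ?_, fun _ => ⟨?_, ?_⟩⟩
    · intro w hw
      rw [hsum w]
      apply Submodule.sum_mem
      intro j _
      by_cases hj : j = i
      · subst hj; exact proj_mem h j w
      · have : proj h j w = 0 := by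
          by_contra hne
          have hrj := hroot j w hw hne
          obtain ⟨a, b, hab⟩ := hcop i j (Ne.symm hj)
          have h2 := congrArg (aeval μ) hab
          rw [map_add, map_mul, map_mul, hri, hrj, mul_zero, mul_zero, add_zero, map_one] at h2
          exact zero_ne_one h2
        rw [this]; exact Submodule.zero_mem _
    · exact IsAlgebraic.isIntegral ⟨P i, hP0 i, hri⟩
    · intro h0
      rw [h0] at hri
      have h2 : (P i).coeff 0 = 0 := by
        rw [← Polynomial.coeff_zero_eq_aeval_zero'] at hri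
        exact (map_eq_zero (algebraMap ℚ K)).1 hri
      have h3 : aeval (0 : ℂ) (P i) = 0 := by
        rw [← Polynomial.coeff_zero_eq_aeval_zero', h2, map_zero]
      have h4 := hPz i 0 h3
      rw [norm_zero] at h4
      have h5 : (0 : ℝ) < (q : ℝ) ^ i := pow_pos (by exact_mod_cast (by omega : 0 < q)) _
      rw [← h4] at h5
      norm_num at h5

variable [IsAlgClosed K]

/-- If the super traces of all powers of `φ` vanish, the space is zero. -/
lemma eq_zero_of_str {φ ε : Module.End K V} {s : K → K}
    (heps : ∀ μ, ∀ v ∈ φ.maxGenEigenspace μ, ε v = s μ • v) (hs : ∀ μ, s μ ≠ 0)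
    (halg : ∀ μ ∈ evs φ, _root_.IsIntegral ℚ μ)
    (h0 : ∀ j : ℕ, LinearMap.trace K V (ε * φ ^ j) = 0) (v : V) : v = 0 := by
  classical
  have hev : evs φ = ∅ := by
    by_contra hne
    obtain ⟨μ, hμ⟩ := Finset.nonempty_iff_ne_empty.2 hne
    obtain ⟨Q, hQ, hQ'⟩ := exists_separable (evs φ) (fun μ => μ) halg
    have hr : ∀ j : ℕ, (((fun _ => 0 : ℕ → ℚ) j : ℚ) : K) =
        ∑ μ ∈ evs φ, (s μ * (φ.charpoly.rootMultiplicity μ : K)) * μ ^ j := by
      intro j
      have h1 := h0 j
      rw [trace_eps heps] at h1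
      rw [Rat.cast_zero, ← h1]
      apply Finset.sum_congr rfl
      intro μ _
      have h2 := trace_pow_mul (φ := φ) (z := 1) (μ := μ) (n := j) (by rw [mul_one, one_mul])
        (by rw [mul_one, one_mul])
      rw [mul_one, one_mul, trace_pe] at h2
      rw [h2]; ring
    have h1 := Npol_mem Q (fun _ => 0) (evs φ) (fun μ => μ)
      (fun μ => s μ * (φ.charpoly.rootMultiplicity μ : K)) hr hQ' hμ (fun _ _ h => h)
    have h2 : Npol Q (fun _ => 0) = 0 := by
      rw [Npol]
      apply Finset.sum_eq_zero
      intro k _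
      rw [Finset.sum_eq_zero (fun j _ => by rw [C_0, zero_mul]), mul_zero]
    rw [h2, map_zero] at h1
    exact (mul_ne_zero (mul_ne_zero (hs μ) (by exact_mod_cast mem_evs.1 hμ))
      (hQ.aeval_derivative_ne_zero (hQ' μ hμ))) h1.symm
  have h1 := congrArg (fun F => F v) (sum_pe φ)
  rw [hev] at h1
  exact h1.symm

/-- The semisimplicity of an operator acting as a scalar on the generalised eigenspaces. -/
lemma semisimple_of_scalar {φ : Module.End K V}
    (h : ∀ μ, ∀ v ∈ φ.maxGenEigenspace μ, φ v = μ • v) : φ.IsSemisimple := by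
  classical
  apply Module.End.isSemisimple_of_squarefree_aeval_eq_zero (p := ∏ μ ∈ evs φ, (X - C μ))
  · apply Polynomial.Separable.squarefree
    exact (Polynomial.separable_prod_X_sub_C_iff' (f := fun μ : K => μ) (s := evs φ)).2
      (fun _ _ _ _ h => h)
  · apply LinearMap.ext
    intro v
    refine ge_induction φ (p := fun v => (aeval φ (∏ μ ∈ evs φ, (X - C μ))) v =
      (0 : Module.End K V) v) ?_ ?_ v
    · intro μ v hv
      by_cases hv0 : v = 0
      · rw [hv0, map_zero, map_zero]
      · rw [← Finset.prod_erase_mul _ _ (mem_evs_of_mem hv hv0), map_mul, Module.End.mul_apply]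
        have h2 : aeval φ (X - C μ) v = 0 := by
          rw [map_sub, LinearMap.sub_apply, aeval_X, aeval_C, Module.algebraMap_end_apply,
            h μ v hv, sub_self]
        rw [h2, map_zero, LinearMap.zero_apply]
    · intro v w hv hw
      rw [map_add, map_add, hv, hw]

end Pool.Agent.H934.GA
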